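import Pool.Graph.R_pool_sql_team_seeded_2aa45f1a.Q287.BA.TriP

/-!
# Computing upper bounds with bounded advice, from majorities of padded inputs
-/

set_option autoImplicit false

namespace Pool.Agent.H201.AD.Bnd

open Filter Encodable
open Pool.Agent.Q324.SC (cnt cnt_eq cnt_comp)

/-- The values of a partial recursive function at a stage. -/
theorem nat_stages {β : Type} [Primcodable β] {f : β →. ℕ} (hf : Partrec f) :
    ∃ st : ℕ × β → Option ℕ, Computable st ∧
      (∀ s s' a b, s ≤ s' → st (s, a) = some b → st (s', a) = some b) ∧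
      ∀ a b, (∃ s, st (s, a) = some b) ↔ b ∈ f a := by
  obtain ⟨c, hc⟩ := Nat.Partrec.Code.exists_code.1 hf
  have hc2 : ∀ a, Nat.Partrec.Code.eval c (encode a) = (f a).map encode := by
    intro a
    rw [hc]
    simp
  refine ⟨fun x => Nat.Partrec.Code.evaln x.1 c (encode x.2), ?_, ?_, ?_⟩
  · refine Primrec.to_comp ?_
    exact Nat.Partrec.Code.primrec_evaln.comp
        ((Primrec.fst.pair (Primrec.const c)).pair (Primrec.encode.comp Primrec.snd))
  · intro s s' a b hs h
    exact Nat.Partrec.Code.evaln_mono hs h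
  · intro a b
    have h0 : b ∈ Nat.Partrec.Code.eval c (encode a) ↔ b ∈ f a := by
      rw [hc2, Part.mem_map_iff]
      constructor
      · rintro ⟨n, h1, h2⟩
        have : n = b := h2
        rwa [← this]
      · exact fun h => ⟨b, h, rfl⟩
    rw [← h0]
    exact ⟨fun ⟨s, hs⟩ => Nat.Partrec.Code.evaln_complete.2 ⟨s, hs⟩,
      fun h => Nat.Partrec.Code.evaln_complete.1 h⟩

/-- the sum of the first values -/
def tot (f : ℕ → ℕ) (m : ℕ) : ℕ := Nat.rec (motive := fun _ => ℕ) 0 (fun k a => a + f k) m

lemma le_tot {f : ℕ → ℕ} {j m : ℕ} (h : j < m) : f j ≤ tot f m := by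
  induction m with
  | zero => omega
  | succ m ih =>
    have h1 : tot f (m + 1) = tot f m + f m := rfl
    rw [h1]
    rcases Nat.lt_succ_iff_lt_or_eq.1 h with h2 | h2
    · exact (ih h2).trans (Nat.le_add_right _ _)
    · rw [h2]
      exact Nat.le_add_left _ _

theorem tot_comp {α : Type*} [Primcodable α] {f : α → ℕ → ℕ} {m : α → ℕ}
    (hf : Computable (fun x : α × ℕ => f x.1 x.2)) (hm : Computable m) :
    Computable (fun a => tot (f a) (m a)) := by
  refine Computable.nat_rec (f := m) (g := fun _ => 0)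
    (h := fun a p => p.2 + f a p.1) hm (Computable.const 0) ?_
  exact Primrec.nat_add.to_comp.comp (Computable.snd.comp Computable.snd)
    (hf.comp (Computable.fst.pair (Computable.fst.comp Computable.snd)))

/-- the first values are all true -/
def al (f : ℕ → Bool) (m : ℕ) : Bool := Nat.rec (motive := fun _ => Bool) true (fun k a => f k && a) m

lemma al_iff {f : ℕ → Bool} {m : ℕ} : al f m = true ↔ ∀ j < m, f j = true := by
  induction m with
  | zero =>
    refine ⟨fun _ j hj => by omega, fun _ => rfl⟩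
  | succ m ih =>
    have h1 : al f (m + 1) = (f m && al f m) := rfl
    rw [h1, Bool.and_eq_true, ih]
    constructor
    · rintro ⟨h2, h3⟩ j hj
      rcases Nat.lt_succ_iff_lt_or_eq.1 hj with h4 | h4
      · exact h3 j h4
      · rw [h4]
        exact h2
    · exact fun h => ⟨h m (Nat.lt_succ_self m), fun j hj => h j (by omega)⟩

theorem al_comp {α : Type*} [Primcodable α] {f : α → ℕ → Bool} {m : α → ℕ}
    (hf : Computable (fun x : α × ℕ => f x.1 x.2)) (hm : Computable m) :
    Computable (fun a => al (f a) (m a)) := by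
  refine Computable.nat_rec (f := m) (g := fun _ => true)
    (h := fun a p => f a p.1 && p.2) hm (Computable.const true) ?_
  exact Primrec.and.to_comp.comp
    (hf.comp (Computable.fst.pair (Computable.fst.comp Computable.snd)))
    (Computable.snd.comp Computable.snd)

lemma cnt_mono {f g : ℕ → Bool} {m : ℕ} (h : ∀ j < m, f j = true → g j = true) :
    cnt f m ≤ cnt g m := by
  rw [cnt_eq, cnt_eq]
  refine Finset.card_le_card fun j hj => ?_
  rw [Finset.mem_filter, Finset.mem_range] at hj ⊢
  exact ⟨hj.1, h j hj.1 hj.2⟩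

/-- two majorities meet -/
lemma cnt_meet {f g : ℕ → Bool} {m : ℕ} (hf : m < 2 * cnt f m) (hg : m < 2 * cnt g m) :
    ∃ j < m, f j = true ∧ g j = true := by
  rw [cnt_eq] at hf hg
  by_contra hcon
  push Not at hcon
  have h1 : Disjoint ((Finset.range m).filter fun j => f j = true)
      ((Finset.range m).filter fun j => g j = true) := by
    rw [Finset.disjoint_left]
    intro j h1 h2
    rw [Finset.mem_filter, Finset.mem_range] at h1 h2
    exact hcon j h1.1 h1.2 h2.2
  have h2 := Finset.card_union_of_disjoint h1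
  have h3 := Finset.card_le_card (Finset.union_subset
    (Finset.filter_subset (fun j => f j = true) (Finset.range m))
    (Finset.filter_subset (fun j => g j = true) (Finset.range m)))
  rw [h2, Finset.card_range] at h3
  omega

lemma find_comp {α : Type} [Primcodable α] {p : α → ℕ → Bool} (hp : Computable₂ p)
    (h : ∀ a, ∃ n, p a n = true) : ∃ f : α → ℕ, Computable f ∧ ∀ a, p a (f a) = true := by
  let r : α →. ℕ := fun i => Nat.rfind fun n => Part.some (p i n)
  have hr : Partrec r := Partrec.rfind hp.partrec₂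
  have hd : ∀ i, (r i).Dom := by
    intro i
    obtain ⟨n, hn⟩ := h i
    exact Nat.rfind_dom.mpr ⟨n, by simp [hn], fun _ => trivial⟩
  refine ⟨fun i => (r i).get (hd i), ?_, fun i => ?_⟩
  · exact hr.of_eq fun i => (Part.some_get (hd i)).symm
  · have h1 := Nat.rfind_spec (Part.get_mem (hd i))
    simpa using h1

section

variable {X : Type} [Primcodable X] (st : ℕ × ℕ × X → Option ℕ) (adm : X × ℕ → Bool)
  (cand : (X × ℕ) × ℕ → X) (num : X × ℕ → ℕ)

/-- at the stage `s` more than half of the values of the function `i` for the inputs of `(x, N)` are known;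
`z = ((s, i), (x, N))` -/
def hl (z : (ℕ × ℕ) × X × ℕ) : Bool :=
  decide (num z.2 < 2 * cnt (fun j => (st (z.1.1, z.1.2, cand (z.2, j))).isSome) (num z.2))

/-- the sum of the known values -/
def out (z : (ℕ × ℕ) × X × ℕ) : ℕ :=
  tot (fun j => (st (z.1.1, z.1.2, cand (z.2, j))).getD 0) (num z.2)

/-- `v = ((((s, i), N), m), n)` -/
def gi (v : (((ℕ × ℕ) × ℕ) × ℕ) × ℕ) : Bool :=
  Option.casesOn (decode (α := X) v.2) true
    (fun x => !adm (x, v.1.1.2) || hl st cand num (v.1.1.1, x, v.1.1.2))

/-- this is so for all admissible `x` of code less than `m`; `w = (((s, i), N), m)` -/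
def gg (w : ((ℕ × ℕ) × ℕ) × ℕ) : Bool := al (fun n => gi st adm cand num (w, n)) w.2

variable {st adm cand num}

lemma hl_comp (cst : Computable st) (cc : Computable cand) (cn : Computable num) :
    Computable (hl st cand num) := by
  have d1 : Computable (fun w : ((ℕ × ℕ) × X × ℕ) × ℕ => w.1.1.1) :=
    Computable.fst.comp (Computable.fst.comp Computable.fst)
  have d2 : Computable (fun w : ((ℕ × ℕ) × X × ℕ) × ℕ => w.1.1.2) :=
    Computable.snd.comp (Computable.fst.comp Computable.fst)
  have d3 : Computable (fun w : ((ℕ × ℕ) × X × ℕ) × ℕ => (w.1.2, w.2)) :=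
    (Computable.snd.comp Computable.fst).pair Computable.snd
  have d4 : Computable (fun w : ((ℕ × ℕ) × X × ℕ) × ℕ => st (w.1.1.1, w.1.1.2, cand (w.1.2, w.2))) :=
    cst.comp (d1.pair (d2.pair (cc.comp d3)))
  have d5 : Computable (fun w : ((ℕ × ℕ) × X × ℕ) × ℕ =>
      (st (w.1.1.1, w.1.1.2, cand (w.1.2, w.2))).isSome) := Primrec.option_isSome.to_comp.comp d4
  have d6 : Computable (fun z : (ℕ × ℕ) × X × ℕ =>
      cnt (fun j => (st (z.1.1, z.1.2, cand (z.2, j))).isSome) (num z.2)) :=
    cnt_comp (f := fun (z : (ℕ × ℕ) × X × ℕ) j => (st (z.1.1, z.1.2, cand (z.2, j))).isSome)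
      d5 (cn.comp Computable.snd)
  have h0 : Primrec (fun y : ℕ × ℕ => decide (y.1 < 2 * y.2)) :=
    (Primrec.nat_lt.comp Primrec.fst (Primrec.nat_mul.comp (Primrec.const 2) Primrec.snd)).decide
  exact Computable.comp (f := fun y : ℕ × ℕ => decide (y.1 < 2 * y.2))
    (g := fun z : (ℕ × ℕ) × X × ℕ => (num z.2,
      cnt (fun j => (st (z.1.1, z.1.2, cand (z.2, j))).isSome) (num z.2))) h0.to_comp
    ((cn.comp Computable.snd).pair d6)

lemma out_comp (cst : Computable st) (cc : Computable cand) (cn : Computable num) :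
    Computable (out st cand num) := by
  have d1 : Computable (fun w : ((ℕ × ℕ) × X × ℕ) × ℕ => w.1.1.1) :=
    Computable.fst.comp (Computable.fst.comp Computable.fst)
  have d2 : Computable (fun w : ((ℕ × ℕ) × X × ℕ) × ℕ => w.1.1.2) :=
    Computable.snd.comp (Computable.fst.comp Computable.fst)
  have d3 : Computable (fun w : ((ℕ × ℕ) × X × ℕ) × ℕ => (w.1.2, w.2)) :=
    (Computable.snd.comp Computable.fst).pair Computable.snd
  have d4 : Computable (fun w : ((ℕ × ℕ) × X × ℕ) × ℕ => st (w.1.1.1, w.1.1.2, cand (w.1.2, w.2))) :=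
    cst.comp (d1.pair (d2.pair (cc.comp d3)))
  have d5 : Computable (fun w : ((ℕ × ℕ) × X × ℕ) × ℕ =>
      (st (w.1.1.1, w.1.1.2, cand (w.1.2, w.2))).getD 0) :=
    Primrec.option_getD.to_comp.comp d4 (Computable.const 0)
  exact tot_comp (f := fun (z : (ℕ × ℕ) × X × ℕ) j => (st (z.1.1, z.1.2, cand (z.2, j))).getD 0)
    d5 (cn.comp Computable.snd)

attribute [local irreducible] hl in
lemma gi_comp (cst : Computable st) (ca : Computable adm) (cc : Computable cand)
    (cn : Computable num) : Computable (gi st adm cand num) := by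
  have hh := hl_comp cst cc cn
  have a0 : Computable (fun y : ((((ℕ × ℕ) × ℕ) × ℕ) × ℕ) × X => y.1.1.1) :=
    Computable.fst.comp (Computable.fst.comp Computable.fst)
  have a1 : Computable (fun y : ((((ℕ × ℕ) × ℕ) × ℕ) × ℕ) × X => (y.2, y.1.1.1.2)) :=
    Computable.snd.pair (Computable.snd.comp a0)
  have a2 : Computable (fun y : ((((ℕ × ℕ) × ℕ) × ℕ) × ℕ) × X => y.1.1.1.1) :=
    Computable.fst.comp a0
  have a3 : Computable (fun y : ((((ℕ × ℕ) × ℕ) × ℕ) × ℕ) × X => adm (y.2, y.1.1.1.2)) := ca.comp a1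
  have a4 : Computable (fun y : ((((ℕ × ℕ) × ℕ) × ℕ) × ℕ) × X =>
      hl st cand num (y.1.1.1.1, y.2, y.1.1.1.2)) := hh.comp (a2.pair a1)
  have a5 : Computable (fun y : ((((ℕ × ℕ) × ℕ) × ℕ) × ℕ) × X =>
      (!adm (y.2, y.1.1.1.2) || hl st cand num (y.1.1.1.1, y.2, y.1.1.1.2))) :=
    Primrec.or.to_comp.comp (Primrec.not.to_comp.comp a3) a4
  have a6 : Computable (fun v : (((ℕ × ℕ) × ℕ) × ℕ) × ℕ => decode (α := X) v.2) :=
    Computable.decode.comp Computable.snd
  exact Computable.option_casesOn (o := fun v : (((ℕ × ℕ) × ℕ) × ℕ) × ℕ => decode (α := X) v.2)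
      (f := fun _ => true)
      (g := fun v x => (!adm (x, v.1.1.2) || hl st cand num (v.1.1.1, x, v.1.1.2)))
      a6 (Computable.const true) a5

lemma gg_comp (cst : Computable st) (ca : Computable adm) (cc : Computable cand)
    (cn : Computable num) : Computable (gg st adm cand num) := by
  have h1 := gi_comp cst ca cc cn
  exact al_comp (f := fun (w : ((ℕ × ℕ) × ℕ) × ℕ) n => gi st adm cand num (w, n)) h1
    Computable.snd

omit [Primcodable X] in
lemma hl_iff (z : (ℕ × ℕ) × X × ℕ) : hl st cand num z = true ↔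
    num z.2 < 2 * cnt (fun j => (st (z.1.1, z.1.2, cand (z.2, j))).isSome) (num z.2) := by
  unfold hl
  rw [decide_eq_true_eq]

lemma gg_iff (w : ((ℕ × ℕ) × ℕ) × ℕ) : gg st adm cand num w = true ↔
    ∀ n < w.2, ∀ x : X, decode n = some x → adm (x, w.1.2) = true →
      hl st cand num (w.1.1, x, w.1.2) = true := by
  unfold gg
  rw [al_iff]
  refine forall_congr' fun n => forall_congr' fun hn => ?_
  unfold gi
  rcases hd : decode (α := X) n with _ | x
  · simp
  · simp only [Option.some.injEq, forall_eq']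
    rcases ha : adm (x, w.1.2) with _ | _
    · simp
    · simp

omit [Primcodable X] in
lemma hl_mono (mst : ∀ s s' a b, s ≤ s' → st (s, a) = some b → st (s', a) = some b)
    {s s' i : ℕ} {y : X × ℕ} (hs : s ≤ s') (h : hl st cand num ((s, i), y) = true) :
    hl st cand num ((s', i), y) = true := by
  rw [hl_iff] at h ⊢
  refine lt_of_lt_of_le h (Nat.mul_le_mul_left 2 (cnt_mono fun j _ hj => ?_))
  obtain ⟨b, hb⟩ := Option.isSome_iff_exists.1 hj
  exact Option.isSome_iff_exists.2 ⟨b, mst s s' _ b hs hb⟩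

lemma gg_mono (mst : ∀ s s' a b, s ≤ s' → st (s, a) = some b → st (s', a) = some b)
    {s s' i N m m' : ℕ} (hs : s ≤ s') (hm : m' ≤ m)
    (h : gg st adm cand num (((s, i), N), m) = true) :
    gg st adm cand num (((s', i), N), m') = true := by
  rw [gg_iff] at h ⊢
  intro n hn x hx ha
  exact hl_mono mst hs (h n (lt_of_lt_of_le hn hm) x hx ha)

end

/-- **Computing upper bounds with bounded advice.** `R x v` says that `v` is an upper bound for the input
`x`. `cand ((x, N), j)`, `j < num (x, N)`, are inputs such that an upper bound for one of them is one for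
`x`. If for every `N` one of the `k` partial algorithms `A (i, ·)` gives a right bound for more than half of
them, then there is a total algorithm for the bounds. -/
theorem bound_correction {X : Type} [Primcodable X] {R : X → ℕ → Prop}
    (hmono : ∀ x v w, v ≤ w → R x v → R x w) (k : ℕ) {A : ℕ × X →. ℕ}
    (hA : Partrec A) {adm : X × ℕ → Bool} (hadm : Computable adm)
    {cand : (X × ℕ) × ℕ → X} (hcand : Computable cand) {num : X × ℕ → ℕ} (hnum : Computable num)
    (hl' : ∀ x, ∀ᶠ N in atTop, adm (x, N) = true)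
    (hT : ∀ x N j v, adm (x, N) = true → R (cand ((x, N), j)) v → R x v)
    (h : ∀ N, ∃ i < k, ∀ x, adm (x, N) = true → ∀ Gd : X → Prop, ∀ [DecidablePred Gd],
      (∀ x, Gd x ↔ ∃ v ∈ A (i, x), R x v) →
      num (x, N) < 2 * cnt (fun j => decide (Gd (cand ((x, N), j)))) (num (x, N))) :
    ∃ B : X → ℕ, Computable B ∧ ∀ x, R x (B x) := by
  classical
  obtain ⟨st, cst, mst, vst⟩ := nat_stages hA
  have cg : Computable (gg st adm cand num) := gg_comp cst hadm hcand hnum
  -- the good index
  have good : ∀ N, ∃ i < k, (∀ x, adm (x, N) = true →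
      num (x, N) < 2 * cnt (fun j => decide (∃ v ∈ A (i, cand ((x, N), j)), R (cand ((x, N), j)) v))
        (num (x, N))) ∧ ∀ m, ∃ s, gg st adm cand num (((s, i), N), m) = true := by
    intro N
    obtain ⟨i, hi, hi2⟩ := h N
    have h1 : ∀ x, adm (x, N) = true →
        num (x, N) < 2 * cnt (fun j => decide (∃ v ∈ A (i, cand ((x, N), j)),
          R (cand ((x, N), j)) v)) (num (x, N)) := fun x hx =>
      hi2 x hx (fun x => ∃ v ∈ A (i, x), R x v) fun _ => Iff.rfl
    refine ⟨i, hi, h1, fun m => ?_⟩
    -- each input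
    have h2 : ∀ x, adm (x, N) = true → ∀ᶠ s in atTop, hl st cand num ((s, i), x, N) = true := by
      intro x hx
      have h3 : ∀ᶠ s in atTop, ∀ j ∈ Finset.range (num (x, N)),
          (∃ v ∈ A (i, cand ((x, N), j)), R (cand ((x, N), j)) v) →
          (st (s, i, cand ((x, N), j))).isSome = true := by
        rw [Filter.eventually_all_finset]
        intro j _
        by_cases hj : ∃ v ∈ A (i, cand ((x, N), j)), R (cand ((x, N), j)) v
        · obtain ⟨v, hv, _⟩ := hj
          obtain ⟨s, hs⟩ := (vst (i, cand ((x, N), j)) v).2 hv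
          filter_upwards [eventually_ge_atTop s] with s' hs' _
          exact Option.isSome_iff_exists.2 ⟨v, mst s s' _ v hs' hs⟩
        · exact Eventually.of_forall fun s hs => absurd hs hj
      filter_upwards [h3] with s hs
      rw [hl_iff]
      refine lt_of_lt_of_le (h1 x hx) (Nat.mul_le_mul_left 2 (cnt_mono fun j hj hj2 => ?_))
      exact hs j (Finset.mem_range.2 hj) (of_decide_eq_true hj2)
    have h4 : ∀ᶠ s in atTop, ∀ n ∈ Finset.range m, ∀ x : X, decode n = some x → adm (x, N) = true →
        hl st cand num ((s, i), x, N) = true := by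
      rw [Filter.eventually_all_finset]
      intro n _
      rcases hd : decode (α := X) n with _ | x
      · exact Eventually.of_forall fun s x hx => by simp at hx
      · by_cases ha : adm (x, N) = true
        · filter_upwards [h2 x ha] with s hs y hy _
          rw [Option.some.injEq] at hy
          rw [← hy]
          exact hs
        · refine Eventually.of_forall fun s y hy hy2 => ?_
          rw [Option.some.injEq] at hy
          rw [← hy] at hy2
          exact absurd hy2 ha
    obtain ⟨s, hs⟩ := h4.exists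
    refine ⟨s, ?_⟩
    rw [gg_iff]
    exact fun n hn => hs n (Finset.mem_range.2 hn)
  -- the number of the indices which give all the values
  let S : ℕ → ℕ → Finset ℕ := fun N m =>
    (Finset.range k).filter fun i => ∃ s, gg st adm cand num (((s, i), N), m) = true
  have hex : ∃ a, ∃ m N₀, ∀ N ≥ N₀, (S N m).card ≤ a := ⟨k, 0, 0, fun N _ =>
    (Finset.card_filter_le _ _).trans (le_of_eq (Finset.card_range k))⟩
  obtain ⟨a, ha1, ha2⟩ : ∃ a, (∃ m N₀, ∀ N ≥ N₀, (S N m).card ≤ a) ∧
      ∀ b < a, ¬ ∃ m N₀, ∀ N ≥ N₀, (S N m).card ≤ b :=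
    ⟨Nat.find hex, Nat.find_spec hex, fun b hb => Nat.find_min hex hb⟩
  obtain ⟨m₀, N₀, hS⟩ := ha1
  have hfreq : ∀ m N₁, ∃ N ≥ N₁, a ≤ (S N m).card := by
    intro m N₁
    by_contra hcon
    push Not at hcon
    rcases Nat.eq_zero_or_pos a with h0 | h0
    · have := hcon N₁ le_rfl
      omega
    · refine ha2 (a - 1) (by omega) ⟨m, N₁, fun N hN => ?_⟩
      have := hcon N hN
      omega
  -- the search
  let p : X → ℕ → Bool := fun x t => decide (N₀ ≤ t.unpair.2) && (adm (x, t.unpair.2) &&
    decide (a ≤ cnt (fun i => gg st adm cand num (((t.unpair.1, i), t.unpair.2), encode x + m₀ + 1)) k))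
  have hp : Computable₂ p := by
    have h0 : Primrec (fun y : ℕ × ℕ => decide (y.1 ≤ y.2)) :=
      (Primrec.nat_le.comp Primrec.fst Primrec.snd).decide
    have u1 : Computable (fun z : X × ℕ => z.2.unpair.1) :=
      (Primrec.fst.comp (Primrec.unpair.comp Primrec.snd)).to_comp
    have u2 : Computable (fun z : X × ℕ => z.2.unpair.2) :=
      (Primrec.snd.comp (Primrec.unpair.comp Primrec.snd)).to_comp
    have u3 : Computable (fun z : X × ℕ => encode z.1 + m₀ + 1) :=
      (Primrec.succ.comp (Primrec.nat_add.comp (Primrec.encode.comp Primrec.fst)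
        (Primrec.const m₀))).to_comp
    have a1 : Computable (fun z : X × ℕ => decide (N₀ ≤ z.2.unpair.2)) :=
      Computable.comp (f := fun y : ℕ × ℕ => decide (y.1 ≤ y.2))
        (g := fun z : X × ℕ => (N₀, z.2.unpair.2)) h0.to_comp ((Computable.const N₀).pair u2)
    have a2 : Computable (fun z : X × ℕ => adm (z.1, z.2.unpair.2)) :=
      hadm.comp (Computable.fst.pair u2)
    have a3 : Computable (fun w : (X × ℕ) × ℕ => (((w.1.2.unpair.1, w.2), w.1.2.unpair.2),
        encode w.1.1 + m₀ + 1)) :=
      (((u1.comp Computable.fst).pair Computable.snd).pair (u2.comp Computable.fst)).pair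
        (u3.comp Computable.fst)
    have a4 : Computable (fun w : (X × ℕ) × ℕ => gg st adm cand num
        (((w.1.2.unpair.1, w.2), w.1.2.unpair.2), encode w.1.1 + m₀ + 1)) := cg.comp a3
    have a5 : Computable (fun z : X × ℕ => cnt (fun i => gg st adm cand num
        (((z.2.unpair.1, i), z.2.unpair.2), encode z.1 + m₀ + 1)) k) :=
      cnt_comp (f := fun (z : X × ℕ) i => gg st adm cand num
        (((z.2.unpair.1, i), z.2.unpair.2), encode z.1 + m₀ + 1)) a4 (Computable.const k)
    have a6 : Computable (fun z : X × ℕ => decide (a ≤ cnt (fun i => gg st adm cand num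
        (((z.2.unpair.1, i), z.2.unpair.2), encode z.1 + m₀ + 1)) k)) :=
      Computable.comp (f := fun y : ℕ × ℕ => decide (y.1 ≤ y.2))
        (g := fun z : X × ℕ => (a, cnt (fun i => gg st adm cand num
          (((z.2.unpair.1, i), z.2.unpair.2), encode z.1 + m₀ + 1)) k)) h0.to_comp
        ((Computable.const a).pair a5)
    exact Primrec.and.to_comp.comp a1 (Primrec.and.to_comp.comp a2 a6)
  obtain ⟨f, hf, hf2⟩ := find_comp hp fun x => by
    obtain ⟨N₂, hN₂⟩ := eventually_atTop.1 (hl' x)
    obtain ⟨N, hN, hc⟩ := hfreq (encode x + m₀ + 1) (max N₀ N₂)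
    have h1 : ∀ᶠ s in atTop, ∀ i ∈ S N (encode x + m₀ + 1),
        gg st adm cand num (((s, i), N), encode x + m₀ + 1) = true := by
      rw [Filter.eventually_all_finset]
      intro i hi
      obtain ⟨s, hs⟩ := (Finset.mem_filter.1 hi).2
      filter_upwards [eventually_ge_atTop s] with s' hs'
      exact gg_mono mst hs' le_rfl hs
    obtain ⟨s, hs⟩ := h1.exists
    refine ⟨Nat.pair s N, ?_⟩
    simp only [p, Nat.unpair_pair, Bool.and_eq_true, decide_eq_true_eq]
    refine ⟨(le_max_left _ _).trans hN, hN₂ N ((le_max_right _ _).trans hN), hc.trans ?_⟩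
    rw [cnt_eq]
    refine Finset.card_le_card fun i hi => ?_
    rw [Finset.mem_filter]
    exact ⟨(Finset.mem_filter.1 hi).1, hs i hi⟩
  -- the bound
  refine ⟨fun x => tot (fun i => out st cand num (((f x).unpair.1, i), x, (f x).unpair.2)) k, ?_,
    fun x => ?_⟩
  · have u0 : Computable (fun w : X × ℕ => (f w.1).unpair) :=
      Computable.unpair.comp (hf.comp Computable.fst)
    have a1 : Computable (fun w : X × ℕ => (((f w.1).unpair.1, w.2), w.1, (f w.1).unpair.2)) :=
      ((Computable.fst.comp u0).pair Computable.snd).pair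
        (Computable.fst.pair (Computable.snd.comp u0))
    have a2 : Computable (fun w : X × ℕ =>
        out st cand num (((f w.1).unpair.1, w.2), w.1, (f w.1).unpair.2)) :=
      (out_comp cst hcand hnum).comp a1
    exact tot_comp (f := fun (x : X) i => out st cand num (((f x).unpair.1, i), x, (f x).unpair.2))
      a2 (Computable.const k)
  · have h1 := hf2 x
    simp only [p, Bool.and_eq_true, decide_eq_true_eq] at h1
    obtain ⟨h2, h3, h4⟩ := h1
    change R x (tot (fun i => out st cand num (((f x).unpair.1, i), x, (f x).unpair.2)) k)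
    obtain ⟨s, hs⟩ : ∃ s, s = (f x).unpair.1 := ⟨_, rfl⟩
    obtain ⟨N, hN⟩ : ∃ N, N = (f x).unpair.2 := ⟨_, rfl⟩
    rw [← hN] at h2 h3 h4 ⊢
    rw [← hs] at h4 ⊢
    obtain ⟨i, hi, hi2, hi3⟩ := good N
    have hsub : (Finset.range k).filter (fun i =>
        gg st adm cand num (((s, i), N), encode x + m₀ + 1) = true) ⊆ S N m₀ := by
      intro i' hi'
      rw [Finset.mem_filter] at hi'
      exact Finset.mem_filter.2 ⟨hi'.1, s, gg_mono mst le_rfl (by omega) hi'.2⟩
    have heq := Finset.eq_of_subset_of_card_le hsub (by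
      rw [cnt_eq] at h4
      exact (hS N h2).trans h4)
    have hmem : i ∈ S N m₀ := Finset.mem_filter.2 ⟨Finset.mem_range.2 hi, hi3 m₀⟩
    rw [← heq, Finset.mem_filter] at hmem
    have h5 := (gg_iff _).1 hmem.2 (encode x) (by simp only; omega) x (encodek x) h3
    rw [hl_iff] at h5
    obtain ⟨j, hj, hj1, hj2⟩ := cnt_meet (hi2 x h3) h5
    obtain ⟨v, hv, hv2⟩ := of_decide_eq_true hj1
    obtain ⟨w, hw⟩ := Option.isSome_iff_exists.1 hj2
    simp only at hw
    have h6 : w ∈ A (i, cand ((x, N), j)) := (vst _ _).1 ⟨s, hw⟩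
    have h7 : v = w := Part.mem_unique hv h6
    have h8 : R x w := hT x N j w h3 (h7 ▸ hv2)
    refine hmono x w _ ?_ h8
    have h9 : w ≤ out st cand num ((s, i), x, N) := by
      have h10 := le_tot (f := fun j => (st (s, i, cand ((x, N), j))).getD 0) hj
      simp only [hw, Option.getD_some] at h10
      exact h10
    exact h9.trans (le_tot (f := fun i => out st cand num ((s, i), x, N)) hi)

end Pool.Agent.H201.AD.Bnd
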