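import Mathlib

/-!
# Bounded advice for the computation of an upper bound

`P i c` says that `c` is an upper bound at stage `i`. A bound at a later stage gives (computably) a bound at
every earlier one. If for every stage one of boundedly many guesses, computed by a partial algorithm, is a
bound, then there is a total algorithm which computes bounds.
-/

set_option autoImplicit false

namespace Pool.Agent.H201.AD

open Nat.Partrec (Code)

lemma exists_computable_find {p : ℕ → ℕ → Bool} (hp : Computable₂ p) (h : ∀ i, ∃ n, p i n = true) :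
    ∃ f : ℕ → ℕ, Computable f ∧ ∀ i, p i (f i) = true := by
  let r : ℕ →. ℕ := fun i => Nat.rfind fun n => Part.some (p i n)
  have hr : Partrec r := Partrec.rfind hp.partrec₂
  have hd : ∀ i, (r i).Dom := by
    intro i
    obtain ⟨n, hn⟩ := h i
    exact Nat.rfind_dom.mpr ⟨n, by simp [hn], fun _ => trivial⟩
  refine ⟨fun i => (r i).get (hd i), ?_, fun i => ?_⟩
  · exact hr.of_eq fun i => (Part.some_get (hd i)).symm
  · have h1 := Nat.rfind_spec (Part.get_mem (hd i))
    simpa using h1

lemma exists_code_pair {F : ℕ × ℕ →. ℕ} (hF : Partrec F) :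
    ∃ c : Code, ∀ j b, c.eval (Nat.pair j b) = F (j, b) := by
  obtain ⟨c, hc⟩ := Nat.Partrec.Code.exists_code.1 hF
  refine ⟨c, fun j b => ?_⟩
  rw [hc]
  simp only [Encodable.decode_prod_val, Nat.unpair_pair, Encodable.decode_nat, Option.map_some,
    Option.bind_some, Part.coe_some, Part.bind_some]
  ext x
  simp

/-- the value of the guess `b` at `j` within `s` steps -/
def ev (c : Code) (j s b : ℕ) : Option ℕ := c.evaln s (Nat.pair j b)

/-- the number of the guesses `b < k` with a value at `j` within `s` steps -/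
def cnt (c : Code) (k j s : ℕ) : ℕ := ∑ b ∈ Finset.range k, if (ev c j s b).isSome then 1 else 0

/-- the sum of these values -/
def sm (c : Code) (k j s : ℕ) : ℕ := ∑ b ∈ Finset.range k, (ev c j s b).getD 0

lemma primrec_ev (c : Code) (b : ℕ) : Primrec fun a : ℕ × ℕ => ev c a.1 a.2 b := by
  unfold ev
  exact Nat.Partrec.Code.primrec_evaln.comp
    (Primrec.pair (Primrec.pair Primrec.snd (Primrec.const c))
      (Primrec₂.natPair.comp Primrec.fst (Primrec.const b)))

lemma primrec_cnt (c : Code) (k : ℕ) : Primrec fun a : ℕ × ℕ => cnt c k a.1 a.2 := by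
  induction k with
  | zero => simpa [cnt] using Primrec.const (α := ℕ × ℕ) 0
  | succ k ih =>
    have h1 : Primrec fun a : ℕ × ℕ => (if (ev c a.1 a.2 k).isSome then 1 else 0 : ℕ) :=
      (Primrec.cond (Primrec.option_isSome.comp (primrec_ev c k)) (Primrec.const 1)
        (Primrec.const 0)).of_eq fun a => by
          cases (ev c a.1 a.2 k).isSome <;> simp
    have h2 := Primrec.nat_add.comp ih h1
    refine h2.of_eq fun a => ?_
    simp only [cnt, Finset.sum_range_succ]

lemma primrec_sm (c : Code) (k : ℕ) : Primrec fun a : ℕ × ℕ => sm c k a.1 a.2 := by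
  induction k with
  | zero => simpa [sm] using Primrec.const (α := ℕ × ℕ) 0
  | succ k ih =>
    have h1 : Primrec fun a : ℕ × ℕ => ((ev c a.1 a.2 k).getD 0 : ℕ) :=
      Primrec.option_getD.comp (primrec_ev c k) (Primrec.const 0)
    have h2 := Primrec.nat_add.comp ih h1
    refine h2.of_eq fun a => ?_
    simp only [sm, Finset.sum_range_succ]

/-- the guesses which halt -/
def halts (c : Code) (k j : ℕ) : Set ℕ := {b | b < k ∧ (c.eval (Nat.pair j b)).Dom}

open Classical in
/-- the number of the guesses which halt -/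
noncomputable def hal (c : Code) (k j : ℕ) : ℕ :=
  ((Finset.range k).filter fun b => (c.eval (Nat.pair j b)).Dom).card

lemma hal_le (c : Code) (k j : ℕ) : hal c k j ≤ k := by
  classical
  exact (Finset.card_filter_le _ _).trans (by simp)

lemma dom_of_isSome {c : Code} {j s b : ℕ} (h : (ev c j s b).isSome) :
    (c.eval (Nat.pair j b)).Dom := by
  obtain ⟨x, hx⟩ := Option.isSome_iff_exists.1 h
  have h1 : x ∈ c.evaln s (Nat.pair j b) := hx
  exact Part.dom_iff_mem.2 ⟨x, Nat.Partrec.Code.evaln_sound h1⟩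

lemma cnt_eq_card (c : Code) (k j s : ℕ) :
    cnt c k j s = ((Finset.range k).filter fun b => (ev c j s b).isSome).card := by
  rw [cnt, Finset.card_filter]

lemma cnt_le_hal (c : Code) (k j s : ℕ) : cnt c k j s ≤ hal c k j := by
  classical
  rw [cnt_eq_card, hal]
  refine Finset.card_le_card fun b hb => ?_
  rw [Finset.mem_filter] at hb ⊢
  exact ⟨hb.1, dom_of_isSome hb.2⟩

/-- if all halting guesses have been seen, their sum is at least each of them -/
lemma le_sm {c : Code} {k j s b x : ℕ} (h : hal c k j ≤ cnt c k j s) (hb : b < k)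
    (hx : x ∈ c.eval (Nat.pair j b)) : x ≤ sm c k j s := by
  classical
  have h1 : ((Finset.range k).filter fun b => (ev c j s b).isSome) =
      (Finset.range k).filter fun b => (c.eval (Nat.pair j b)).Dom := by
    refine Finset.eq_of_subset_of_card_le (fun b hb => ?_) ?_
    · rw [Finset.mem_filter] at hb ⊢
      exact ⟨hb.1, dom_of_isSome hb.2⟩
    · rw [← cnt_eq_card]
      exact h
  have h2 : b ∈ (Finset.range k).filter fun b => (c.eval (Nat.pair j b)).Dom := by
    rw [Finset.mem_filter]
    exact ⟨Finset.mem_range.2 hb, Part.dom_iff_mem.2 ⟨x, hx⟩⟩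
  rw [← h1, Finset.mem_filter] at h2
  obtain ⟨y, hy⟩ := Option.isSome_iff_exists.1 h2.2
  have h3 : y ∈ c.eval (Nat.pair j b) := Nat.Partrec.Code.evaln_sound (show y ∈ c.evaln s _ from hy)
  obtain rfl := Part.mem_unique hx h3
  have h4 : (ev c j s b).getD 0 ≤ sm c k j s :=
    Finset.single_le_sum (f := fun b => (ev c j s b).getD 0) (fun _ _ => Nat.zero_le _) h2.1
  rw [hy] at h4
  simpa using h4

lemma exists_cnt_eq (c : Code) (k j : ℕ) : ∃ s, hal c k j ≤ cnt c k j s := by
  classical
  have h1 : ∀ b, ∃ s, (c.eval (Nat.pair j b)).Dom → (ev c j s b).isSome := by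
    intro b
    by_cases hb : (c.eval (Nat.pair j b)).Dom
    · obtain ⟨x, hx⟩ := Part.dom_iff_mem.1 hb
      obtain ⟨s, hs⟩ := Nat.Partrec.Code.evaln_complete.1 hx
      exact ⟨s, fun _ => Option.isSome_iff_exists.2 ⟨x, hs⟩⟩
    · exact ⟨0, fun h => absurd h hb⟩
  choose s hs using h1
  refine ⟨(Finset.range k).sup s, ?_⟩
  rw [cnt_eq_card, hal]
  refine Finset.card_le_card fun b hb => ?_
  rw [Finset.mem_filter] at hb ⊢
  refine ⟨hb.1, ?_⟩
  obtain ⟨x, hx⟩ := Option.isSome_iff_exists.1 (hs b hb.2)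
  have h2 : x ∈ c.evaln ((Finset.range k).sup s) (Nat.pair j b) :=
    Nat.Partrec.Code.evaln_mono (Finset.le_sup hb.1) (show x ∈ c.evaln (s b) _ from hx)
  exact Option.isSome_iff_exists.2 ⟨x, h2⟩

attribute [local irreducible] Nat.unpair Nat.pair sm cnt in
/-- **Bounded advice.** -/
theorem bounded_of_advice {F : ℕ × ℕ →. ℕ} (hF : Partrec F) (k : ℕ) (P : ℕ → ℕ → Prop)
    (hmono : ∀ i c c', c ≤ c' → P i c → P i c')
    (t : ℕ × ℕ × ℕ → ℕ) (ht : Computable t) (hdown : ∀ i j c, i ≤ j → P j c → P i (t (i, j, c)))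
    (hadv : ∀ j, ∃ b < k, ∃ c ∈ F (j, b), P j c) :
    ∃ C : ℕ → ℕ, Computable C ∧ ∀ i, P i (C i) := by
  classical
  obtain ⟨c, hc⟩ := exists_code_pair hF
  -- the largest number of halting guesses at arbitrarily large stages
  let A : ℕ → Prop := fun m => ∀ i, ∃ j ≥ i, m ≤ hal c k j
  have hA0 : A 0 := fun i => ⟨i, le_rfl, Nat.zero_le _⟩
  have hAk : ∃ m, ¬ A m := ⟨k + 1, fun h => by
    obtain ⟨j, _, h1⟩ := h 0
    have := hal_le c k j
    omega⟩
  obtain ⟨m, hm, hm'⟩ : ∃ m, A m ∧ ¬ A (m + 1) := by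
    have h1 := Nat.find_spec hAk
    have h2 : Nat.find hAk ≠ 0 := fun h => by
      rw [h] at h1
      exact h1 hA0
    obtain ⟨m, hm⟩ := Nat.exists_eq_succ_of_ne_zero h2
    refine ⟨m, ?_, ?_⟩
    · by_contra h3
      have := Nat.find_min' hAk h3
      omega
    · rw [← Nat.succ_eq_add_one, ← hm]
      exact h1
  obtain ⟨i0, hi0⟩ : ∃ i0, ∀ j ≥ i0, hal c k j ≤ m := by
    by_contra h
    push Not at h
    exact hm' fun i => by
      obtain ⟨j, h1, h2⟩ := h i
      exact ⟨j, h1, h2⟩
  let J : ℕ → ℕ → ℕ := fun i n => i + i0 + n.unpair.1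
  let p : ℕ → ℕ → Bool := fun i n => decide (m ≤ cnt c k (J i n) n.unpair.2)
  have hJ : Primrec₂ J := by
    have h1 : Primrec fun a : ℕ × ℕ => a.1 + i0 :=
      Primrec.nat_add.comp Primrec.fst (Primrec.const i0)
    exact Primrec.nat_add.comp h1 (Primrec.fst.comp (Primrec.unpair.comp Primrec.snd))
  have hp : Computable₂ p := by
    have h1 : Primrec fun a : ℕ × ℕ => cnt c k (J a.1 a.2) a.2.unpair.2 :=
      (primrec_cnt c k).comp (Primrec.pair hJ (Primrec.snd.comp (Primrec.unpair.comp Primrec.snd)))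
    have h2 : PrimrecPred fun a : ℕ × ℕ => m ≤ cnt c k (J a.1 a.2) a.2.unpair.2 :=
      Primrec.nat_le.comp (Primrec.const m) h1
    exact (show Primrec fun a : ℕ × ℕ => decide (m ≤ cnt c k (J a.1 a.2) a.2.unpair.2) from
      h2.decide).to_comp
  obtain ⟨f, hf, hf'⟩ := exists_computable_find hp fun i => by
    obtain ⟨j, h1, h2⟩ := hm (i + i0)
    obtain ⟨s, hs⟩ := exists_cnt_eq c k j
    refine ⟨Nat.pair (j - (i + i0)) s, ?_⟩
    have h3 : J i (Nat.pair (j - (i + i0)) s) = j := by
      simp only [J, Nat.unpair_pair]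
      omega
    simp only [p, decide_eq_true_eq, h3, Nat.unpair_pair]
    exact h2.trans hs
  refine ⟨fun i => t (i, J i (f i), sm c k (J i (f i)) (f i).unpair.2), ?_, fun i => ?_⟩
  · have h1 : Computable fun i => J i (f i) := hJ.to_comp.comp Computable.id hf
    have h2 : Computable fun i => (f i).unpair.2 :=
      Computable.snd.comp (Computable.unpair.comp hf)
    have h3 : Computable fun i => sm c k (J i (f i)) (f i).unpair.2 :=
      (primrec_sm c k).to_comp.comp (Computable.pair h1 h2)
    have h4 : Computable fun i => (i, J i (f i), sm c k (J i (f i)) (f i).unpair.2) :=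
      Computable.pair Computable.id (Computable.pair h1 h3)
    exact ht.comp h4
  · have h1 := hf' i
    simp only [p, decide_eq_true_eq] at h1
    have h2 : i ≤ J i (f i) := by simp only [J]; omega
    have h3 : i0 ≤ J i (f i) := by simp only [J]; omega
    refine hdown i _ _ h2 ?_
    obtain ⟨b, hb, x, hx, hPx⟩ := hadv (J i (f i))
    refine hmono _ x _ (le_sm ((hi0 _ h3).trans h1) hb ?_) hPx
    rw [hc]
    exact hx

end Pool.Agent.H201.AD
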