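import Pool.Graph.R_pool_sql_team_seeded_2aa45f1a.Q287.BA.TriP

/-!
# Self-correction with bounded advice: the general form
-/

set_option autoImplicit false

namespace Pool.Agent.H201.AD

open Filter Pool.Agent.Q324.SC Pool.Agent.Q287.BA

attribute [local irreducible] Tz.maj cnt

/-- `cand (x, N, j)`, `j < num (x, N)`, are inputs with the same answer as `x`. If for every `N` one of the
`k` partial algorithms `A (i, ·)` is right for more than half of them, then the problem is decidable. -/
theorem self_correction {X : Type} [Primcodable X] {T : X → Prop} (k : ℕ) {A : ℕ × X →. Bool}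
    (hA : Partrec A) {adm : X × ℕ → Bool} (hadm : Computable adm)
    {cand : (X × ℕ) × ℕ → X} (hcand : Computable cand) {num : X × ℕ → ℕ} (hnum : Computable num)
    (hl : ∀ x, ∀ᶠ N in atTop, adm (x, N) = true)
    (hT : ∀ x N j, adm (x, N) = true → (T (cand ((x, N), j)) ↔ T x))
    (h : ∀ N, ∃ i < k, ∀ x, adm (x, N) = true → ∀ Gd : X → Prop, ∀ [DecidablePred Gd],
      (∀ x, Gd x ↔ ∃ b ∈ A (i, x), (b = true ↔ T x)) →
      num (x, N) < 2 * cnt (fun j => decide (Gd (cand ((x, N), j)))) (num (x, N))) :
    ComputablePred T := by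
  classical
  obtain ⟨st, cst, mst, vst⟩ := Partial.stages hA
  obtain ⟨F, hF⟩ : ∃ F : (ℕ × ℕ) × X × ℕ → Option Bool, F = fun z =>
    Tz.maj (fun j => st (z.1.1, (z.1.2, cand (z.2, j)))) (num z.2) := ⟨_, rfl⟩
  have cF : Computable F := by
    rw [hF]
    refine Tz.maj_comp (f := fun (z : (ℕ × ℕ) × X × ℕ) j => st (z.1.1, (z.1.2, cand (z.2, j)))) ?_
      (hnum.comp Computable.snd)
    have d1 : Computable (fun w : ((ℕ × ℕ) × X × ℕ) × ℕ => w.1.1.1) :=
      Computable.fst.comp (Computable.fst.comp Computable.fst)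
    have d2 : Computable (fun w : ((ℕ × ℕ) × X × ℕ) × ℕ => w.1.1.2) :=
      Computable.snd.comp (Computable.fst.comp Computable.fst)
    have d3 : Computable (fun w : ((ℕ × ℕ) × X × ℕ) × ℕ => (w.1.2, w.2)) :=
      (Computable.snd.comp Computable.fst).pair Computable.snd
    exact cst.comp (d1.pair (d2.pair (hcand.comp d3)))
  obtain ⟨D, hD, hD2⟩ := Partial.corep (X := X) (P := fun _ => True) (T := T) (k := k) cF hadm
    (by
      intro s s' i x N b hs hb
      rw [hF] at hb ⊢
      exact Tz.maj_mono (fun j _ b hj => mst s s' _ b hs hj) hb)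
    (fun x _ => hl x)
    (by
      intro N
      obtain ⟨i, hi, hi2⟩ := h N
      refine ⟨i, hi, fun x _ hx => ?_⟩
      have key := hi2 x hx (fun x => ∃ b ∈ A (i, x), (b = true ↔ T x)) (fun _ => Iff.rfl)
      obtain ⟨s, hs⟩ := Tri.votep (st := st) mst (b := decide (T x))
        (e := fun j => (i, cand ((x, N), j))) key (by
          intro j _ hj
          obtain ⟨b, hb, hb2⟩ := of_decide_eq_true hj
          rw [hT x N j hx] at hb2
          have e3 : b = decide (T x) := by
            rw [Bool.eq_iff_iff, decide_eq_true_eq]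
            exact hb2
          rw [e3] at hb
          exact (vst _ _).2 hb)
      exact ⟨s, decide (T x), by rw [hF]; exact hs, by simp⟩)
  exact total hD fun x => hD2 x trivial

end Pool.Agent.H201.AD
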