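import Pool.Agent.H201.AD.Poly2
import Pool.Agent.H201.AD.Self
import Pool.Graph.R_pool_sql_team_seeded_2aa45f1a.Q287.BA.Artin

/-!
# Deciding infinitude of rational points on plane curves: bounded advice and few failures
-/

set_option autoImplicit false

namespace Pool.Agent.H201.AD.Poly2

open Filter Encodable Pool.Agent.Q324.SC Pool.Agent.Q287.BA

abbrev LL : Type := List (List ℤ)

lemma sz_primrec : Primrec sz := by
  unfold sz
  refine psum (pmap (by fun_prop) ?_)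
  refine psum (pmap (by fun_prop) ?_)
  fun_prop

lemma dg_primrec : Primrec dg := by
  unfold dg
  refine padd (by fun_prop) (psum (pmap (by fun_prop) ?_))
  fun_prop

lemma nf_primrec : Primrec nf := by
  unfold nf
  have h1 : Primrec (fun L : LL => decide (sz L = 0)) := pbeq sz_primrec (pconst 0)
  exact pcond h1 (pconst _) pid

lemma co_primrec {α : Type} [Primcodable α] {f : α → LL} {g h : α → ℕ} (hf : Primrec f)
    (hg : Primrec g) (hh : Primrec h) : Primrec (fun x => co (f x) (g x) (h x)) := by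
  unfold co
  have h1 : Primrec (fun x => (f x).getD (g x) []) := (Primrec.list_getD ([] : List ℤ)).comp hf hg
  exact pgetD h1 hh

lemma wt_primrec : Primrec (fun x : (ℕ × ℕ × ℕ) × (ℕ × ℕ) × (ℕ × ℕ) =>
    wt x.1.1 x.1.2.1 x.1.2.2 x.2.1.1 x.2.1.2 x.2.2.1 x.2.2.2) := by
  unfold wt hc dig
  fun_prop

attribute [local irreducible] wt co dg in
lemma cf_primrec : Primrec (fun x : (LL × ℕ × ℕ × ℕ × ℕ) × ℕ × ℕ =>
    cf x.1.1 x.1.2.1 x.1.2.2.2.1 x.1.2.2.2.2 x.2.1 x.2.2) := by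
  unfold cf
  have hd : Primrec (fun x : (LL × ℕ × ℕ × ℕ × ℕ) × ℕ × ℕ => dg x.1.1) :=
    dg_primrec.comp (by fun_prop)
  have hd2 : Primrec (fun x : ((LL × ℕ × ℕ × ℕ × ℕ) × ℕ × ℕ) × ℕ => dg x.1.1.1) :=
    dg_primrec.comp (by fun_prop)
  have h1 : Primrec (fun x : (((LL × ℕ × ℕ × ℕ × ℕ) × ℕ × ℕ) × ℕ) × ℕ =>
      co x.1.1.1.1 x.1.2 x.2) := co_primrec (by fun_prop) (by fun_prop) (by fun_prop)
  have g2 : Primrec (fun x : (((LL × ℕ × ℕ × ℕ × ℕ) × ℕ × ℕ) × ℕ) × ℕ =>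
      ((x.1.1.1.2.1, x.1.1.1.2.2.2.1, x.1.1.1.2.2.2.2), (x.1.1.2.1, x.1.1.2.2), (x.1.2, x.2))) := by
    fun_prop
  have h2 : Primrec (fun x : (((LL × ℕ × ℕ × ℕ × ℕ) × ℕ × ℕ) × ℕ) × ℕ =>
      wt x.1.1.1.2.1 x.1.1.1.2.2.2.1 x.1.1.1.2.2.2.2 x.1.1.2.1 x.1.1.2.2 x.1.2 x.2) :=
    wt_primrec.comp g2
  have h3 : Primrec (fun x : (((LL × ℕ × ℕ × ℕ × ℕ) × ℕ × ℕ) × ℕ) × ℕ =>
      co x.1.1.1.1 x.1.2 x.2 *
        (wt x.1.1.1.2.1 x.1.1.1.2.2.2.1 x.1.1.1.2.2.2.2 x.1.1.2.1 x.1.1.2.2 x.1.2 x.2 : ℤ)) :=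
    pimul h1 (picast h2)
  have h4 : Primrec (fun x : ((LL × ℕ × ℕ × ℕ × ℕ) × ℕ × ℕ) × ℕ =>
      ((List.range (dg x.1.1.1)).map fun b => co x.1.1.1 x.2 b *
        (wt x.1.1.2.1 x.1.1.2.2.2.1 x.1.1.2.2.2.2 x.1.2.1 x.1.2.2 x.2 b : ℤ)).sum) :=
    pisum (pmap (f := fun x : ((LL × ℕ × ℕ × ℕ × ℕ) × ℕ × ℕ) × ℕ => List.range (dg x.1.1.1))
      (g := fun (x : ((LL × ℕ × ℕ × ℕ × ℕ) × ℕ × ℕ) × ℕ) (b : ℕ) => co x.1.1.1 x.2 b *
        (wt x.1.1.2.1 x.1.1.2.2.2.1 x.1.1.2.2.2.2 x.1.2.1 x.1.2.2 x.2 b : ℤ)) (prange hd2) h3)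
  exact pisum (pmap (f := fun x : (LL × ℕ × ℕ × ℕ × ℕ) × ℕ × ℕ => List.range (dg x.1.1))
    (g := fun (x : (LL × ℕ × ℕ × ℕ × ℕ) × ℕ × ℕ) (a : ℕ) =>
      ((List.range (dg x.1.1)).map fun b => co x.1.1 a b *
        (wt x.1.2.1 x.1.2.2.2.1 x.1.2.2.2.2 x.2.1 x.2.2 a b : ℤ)).sum) (prange hd) h4)

attribute [local irreducible] cf in
/-- computability of the products -/
lemma cand_primrec : Primrec (fun p : LL × ℕ × ℕ × ℕ × ℕ =>
    cand p.1 p.2.1 p.2.2.1 p.2.2.2.1 p.2.2.2.2) := by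
  unfold cand grid
  have hn : Primrec (fun p : LL × ℕ × ℕ × ℕ × ℕ => p.2.2.1 + 1) := by fun_prop
  have hn2 : Primrec (fun p : (LL × ℕ × ℕ × ℕ × ℕ) × ℕ => p.1.2.2.1 + 1) := by fun_prop
  have g3 : Primrec (fun x : ((LL × ℕ × ℕ × ℕ × ℕ) × ℕ) × ℕ => (x.1.1, x.1.2, x.2)) := by fun_prop
  have h3 : Primrec (fun x : ((LL × ℕ × ℕ × ℕ × ℕ) × ℕ) × ℕ =>
      cf x.1.1.1 x.1.1.2.1 x.1.1.2.2.2.1 x.1.1.2.2.2.2 x.1.2 x.2) := cf_primrec.comp g3
  have h4 : Primrec (fun x : (LL × ℕ × ℕ × ℕ × ℕ) × ℕ =>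
      (List.range (x.1.2.2.1 + 1)).map fun j => cf x.1.1 x.1.2.1 x.1.2.2.2.1 x.1.2.2.2.2 x.2 j) :=
    pmap (f := fun x : (LL × ℕ × ℕ × ℕ × ℕ) × ℕ => List.range (x.1.2.2.1 + 1))
      (g := fun (x : (LL × ℕ × ℕ × ℕ × ℕ) × ℕ) (j : ℕ) =>
        cf x.1.1 x.1.2.1 x.1.2.2.2.1 x.1.2.2.2.2 x.2 j) (prange hn2) h3
  exact pmap (f := fun x : LL × ℕ × ℕ × ℕ × ℕ => List.range (x.2.2.1 + 1))
    (g := fun (x : LL × ℕ × ℕ × ℕ × ℕ) (i : ℕ) =>
      (List.range (x.2.2.1 + 1)).map fun j => cf x.1 x.2.1 x.2.2.2.1 x.2.2.2.2 i j) (prange hn) h4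

/-- half of the degree of the new factors; `x = (L, n)` -/
def ee (x : LL × ℕ) : ℕ := (x.2 - dg (nf x.1)) / 2

/-- the number of the coefficients of the new factors -/
def ff (x : LL × ℕ) : ℕ := (2 * ee x + 1) * (2 * ee x + 1)

def mm (K : ℕ → ℕ) (x : LL × ℕ) : ℕ := 2 * K x.2 * (11 * sz (nf x.1)) ^ (ff x - 1)

/-- a sufficient bound for the coefficients -/
def vv (K : ℕ → ℕ) (x : LL × ℕ) : ℕ := sz (nf x.1) + 10 * sz (nf x.1) * mm K x

/-- the range of the new coefficients; `y = (L, n, H)` -/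
def MM (y : LL × ℕ × ℕ) : ℕ := (y.2.2 - sz (nf y.1)) / (10 * sz (nf y.1))

def num (y : LL × ℕ × ℕ) : ℕ := (MM y + 1) ^ ff (y.1, y.2.1)

def cd (z : (LL × ℕ × ℕ) × ℕ) : LL :=
  cand (nf z.1.1) (ee (z.1.1, z.1.2.1)) z.1.2.1 (MM z.1) z.2

/-- when the vote is right -/
def okk (g K : ℕ → ℕ) (y : LL × ℕ × ℕ) : Prop :=
  dg (nf y.1) ≤ y.2.1 ∧ 2 * (dg (nf y.1) + 1) ≤ g y.2.1 ∧ vv K (y.1, y.2.1) ≤ y.2.2

lemma ee_primrec : Primrec ee := by
  unfold ee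
  have h1 : Primrec (fun x : LL × ℕ => dg (nf x.1)) := dg_primrec.comp (nf_primrec.comp (by fun_prop))
  exact pdiv (psub (by fun_prop) h1) (pconst 2)

lemma ff_primrec : Primrec ff := by
  unfold ff
  have h1 := ee_primrec
  exact pmul (padd (pmul (pconst 2) h1) (pconst 1)) (padd (pmul (pconst 2) h1) (pconst 1))

lemma sn_primrec : Primrec (fun x : LL × ℕ => sz (nf x.1)) :=
  sz_primrec.comp (nf_primrec.comp (by fun_prop))

lemma sn_primrec' : Primrec (fun y : LL × ℕ × ℕ => sz (nf y.1)) :=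
  sz_primrec.comp (nf_primrec.comp (by fun_prop))

lemma mm_comp {K : ℕ → ℕ} (hK : Computable K) : Computable (mm K) := by
  unfold mm
  have h1 : Primrec (fun x : LL × ℕ => (11 * sz (nf x.1)) ^ (ff x - 1)) :=
    ppow (pmul (pconst 11) sn_primrec) (psub ff_primrec (pconst 1))
  have h2 : Computable (fun x : LL × ℕ => 2 * K x.2) :=
    Primrec.nat_mul.to_comp.comp (Computable.const 2) (hK.comp Computable.snd)
  exact Primrec.nat_mul.to_comp.comp h2 h1.to_comp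

lemma vv_comp {K : ℕ → ℕ} (hK : Computable K) : Computable (vv K) := by
  unfold vv
  have h1 : Primrec (fun x : LL × ℕ => 10 * sz (nf x.1)) := pmul (pconst 10) sn_primrec
  exact Primrec.nat_add.to_comp.comp sn_primrec.to_comp
    (Primrec.nat_mul.to_comp.comp h1.to_comp (mm_comp hK))

lemma MM_primrec : Primrec MM := by
  unfold MM
  exact pdiv (psub (by fun_prop) sn_primrec') (pmul (pconst 10) sn_primrec')

lemma num_primrec : Primrec num := by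
  unfold num
  have h1 : Primrec (fun y : LL × ℕ × ℕ => ff (y.1, y.2.1)) := ff_primrec.comp (by fun_prop)
  exact ppow (padd MM_primrec (pconst 1)) h1

attribute [local irreducible] cand ee MM nf in
lemma cd_primrec : Primrec cd := by
  unfold cd
  have h1 : Primrec (fun z : (LL × ℕ × ℕ) × ℕ => nf z.1.1) := nf_primrec.comp (by fun_prop)
  have h2 : Primrec (fun z : (LL × ℕ × ℕ) × ℕ => ee (z.1.1, z.1.2.1)) :=
    ee_primrec.comp (by fun_prop)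
  have h4 : Primrec (fun z : (LL × ℕ × ℕ) × ℕ => MM z.1) := MM_primrec.comp (by fun_prop)
  have h5 : Primrec (fun z : (LL × ℕ × ℕ) × ℕ =>
      (nf z.1.1, ee (z.1.1, z.1.2.1), z.1.2.1, MM z.1, z.2)) := by fun_prop
  exact cand_primrec.comp h5

lemma ok_comp {g K : ℕ → ℕ} (hg : Computable g) (hK : Computable K) :
    Computable (fun y : LL × ℕ × ℕ => @decide (okk g K y) (Classical.propDecidable _)) := by
  classical
  have hd : Primrec (fun y : LL × ℕ × ℕ => dg (nf y.1)) :=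
    dg_primrec.comp (nf_primrec.comp (by fun_prop))
  have h0 : Primrec (fun y : ℕ × ℕ => decide (y.1 ≤ y.2)) := by fun_prop
  have q1 : Computable (fun y : LL × ℕ × ℕ => decide (dg (nf y.1) ≤ y.2.1)) :=
    (pble hd (by fun_prop)).to_comp
  have q2 : Computable (fun y : LL × ℕ × ℕ => decide (2 * (dg (nf y.1) + 1) ≤ g y.2.1)) := by
    have a1 : Primrec (fun y : LL × ℕ × ℕ => 2 * (dg (nf y.1) + 1)) :=
      pmul (pconst 2) (padd hd (pconst 1))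
    have a2 : Computable (fun y : LL × ℕ × ℕ => g y.2.1) :=
      hg.comp (Computable.fst.comp Computable.snd)
    exact Computable.comp (f := fun y : ℕ × ℕ => decide (y.1 ≤ y.2))
      (g := fun y : LL × ℕ × ℕ => (2 * (dg (nf y.1) + 1), g y.2.1)) h0.to_comp (a1.to_comp.pair a2)
  have q3 : Computable (fun y : LL × ℕ × ℕ => decide (vv K (y.1, y.2.1) ≤ y.2.2)) := by
    have a1 : Computable (fun y : LL × ℕ × ℕ => vv K (y.1, y.2.1)) :=
      (vv_comp hK).comp (Computable.fst.pair (Computable.fst.comp Computable.snd))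
    have a2 : Computable (fun y : LL × ℕ × ℕ => y.2.2) := Computable.snd.comp Computable.snd
    exact Computable.comp (f := fun y : ℕ × ℕ => decide (y.1 ≤ y.2))
      (g := fun y : LL × ℕ × ℕ => (vv K (y.1, y.2.1), y.2.2)) h0.to_comp (a1.pair a2)
  refine (Primrec.and.to_comp.comp q1 (Primrec.and.to_comp.comp q2 q3)).of_eq fun x => ?_
  rw [Bool.eq_iff_iff]
  simp only [Bool.and_eq_true, decide_eq_true_eq]
  rfl

end Pool.Agent.H201.AD.Poly2
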