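import Pool.Agent.H201.AD.Curve
import Pool.Agent.H201.AD.Core

/-!
# Deciding infinitude of rational points on plane curves: the theorem
-/

set_option autoImplicit false

namespace Pool.Agent.H201.AD.Poly2

open Filter Encodable Pool.Agent.Q324.SC Pool.Agent.Q287.BA

lemma ff_ge (x : LL × ℕ) : (x.2 - dg (nf x.1)) ^ 2 ≤ ff x := by
  unfold ff
  rw [← sq]
  refine Nat.pow_le_pow_left ?_ 2
  unfold ee
  omega

lemma ee_le {x : LL × ℕ} (h : dg (nf x.1) ≤ x.2) : dg (nf x.1) + 2 * ee x ≤ x.2 := by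
  unfold ee
  omega

lemma MM_spec {K : ℕ → ℕ} {y : LL × ℕ × ℕ} (h : vv K (y.1, y.2.1) ≤ y.2.2) :
    mm K (y.1, y.2.1) ≤ MM y ∧ sz (nf y.1) * (10 * MM y + 1) ≤ y.2.2 ∧
      y.2.2 + 1 ≤ 11 * sz (nf y.1) * (MM y + 1) := by
  have hs : 0 < sz (nf y.1) := Nat.pos_of_ne_zero (sz_nf y.1)
  unfold vv at h
  obtain ⟨s, hse⟩ : ∃ s, s = sz (nf y.1) := ⟨_, rfl⟩
  obtain ⟨H, hH⟩ : ∃ H, H = y.2.2 := ⟨_, rfl⟩
  obtain ⟨m, hm⟩ : ∃ m, m = mm K (y.1, y.2.1) := ⟨_, rfl⟩
  obtain ⟨M, hM⟩ : ∃ M, M = MM y := ⟨_, rfl⟩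
  have hM2 : M = (H - s) / (10 * s) := by rw [hM, hH, hse]; rfl
  simp only at h
  rw [← hse, ← hH, ← hm] at h
  rw [← hse] at hs
  rw [← hm, ← hM, ← hse, ← hH]
  have h1 : 10 * s * M ≤ H - s := by
    rw [hM2]
    exact Nat.mul_div_le _ _
  have h2 : H - s < 10 * s * (M + 1) := by
    rw [hM2]
    exact Nat.lt_mul_div_succ _ (by omega)
  refine ⟨?_, ?_, ?_⟩
  · rw [hM2, Nat.le_div_iff_mul_le (by omega)]
    have : m * (10 * s) = 10 * s * m := by ring
    omega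
  · have : s * (10 * M + 1) = 10 * s * M + s := by ring
    omega
  · have h3 : 10 * s * (M + 1) = 10 * s * M + 10 * s := by ring
    have h4 : 11 * s * (M + 1) = 10 * s * M + 10 * s + (s * M + s) := by ring
    have h5 : 0 ≤ s * M := Nat.zero_le _
    omega

/-- the exponents -/
lemma expo {n d g : ℕ} (h1 : d ≤ n) (h2 : 2 * (d + 1) ≤ g) :
    (n + 1) ^ 2 - g * (n + 1) ≤ (n - d) ^ 2 - 1 := by
  obtain ⟨t, rfl⟩ : ∃ t, n = d + t := ⟨n - d, by omega⟩
  have h3 : d + t - d = t := by omega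
  rw [h3]
  have h4 : 2 * (d + 1) * (d + t + 1) ≤ g * (d + t + 1) := Nat.mul_le_mul_right _ h2
  have h5 : (d + t + 1) ^ 2 + 1 ≤ 2 * (d + 1) * (d + t + 1) + t ^ 2 := by nlinarith
  omega

/-- the majority of the products is good -/
lemma vote {g K : ℕ → ℕ} {y : LL × ℕ × ℕ} (hok : okk g K y) {Gd : LL → Prop} [DecidablePred Gd]
    (h : {L | L ∈ Box y.2.1 y.2.2 ∧ ¬ Gd L}.encard
      ≤ ((K y.2.1 * (y.2.2 + 1) ^ ((y.2.1 + 1) ^ 2 - g y.2.1 * (y.2.1 + 1)) : ℕ) : ℕ∞)) :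
    num y < 2 * Q324.SC.cnt (fun j => decide (Gd (cd (y, j)))) (num y) := by
  obtain ⟨L, n, H⟩ := y
  obtain ⟨h1, h2, h3⟩ := hok
  obtain ⟨g1, g2, g3⟩ := MM_spec (y := (L, n, H)) h3
  simp only at h1 h2 g1 g2 g3 h
  have hff := ff_ge (L, n)
  simp only at hff
  have hff1 : 1 ≤ ff (L, n) := by
    unfold ff
    exact Nat.mul_pos (by omega) (by omega)
  obtain ⟨W, hW⟩ : ∃ W, W = (Finset.range (num (L, n, H))).filter
    (fun j => ¬ Gd (cd ((L, n, H), j))) := ⟨_, rfl⟩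
  -- the number of the bad products
  have e1 : W.card ≤ K n * (H + 1) ^ ((n + 1) ^ 2 - g n * (n + 1)) := by
    have a1 : (W.card : ℕ∞) ≤ {L | L ∈ Box n H ∧ ¬ Gd L}.encard := by
      rw [← Set.encard_coe_eq_coe_finsetCard]
      have a2 : Set.InjOn (fun j => cd ((L, n, H), j)) (W : Set ℕ) := by
        intro k hk k' hk' hkk
        rw [hW, Finset.mem_coe, Finset.mem_filter, Finset.mem_range] at hk hk'
        exact cand_inj (ee_le (x := (L, n)) h1) (sz_nf L) hk.1 hk'.1 hkk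
      rw [← a2.encard_image]
      refine Set.encard_le_encard ?_
      rintro _ ⟨k, hk, rfl⟩
      rw [hW, Finset.mem_coe, Finset.mem_filter, Finset.mem_range] at hk
      exact ⟨cand_mem g2, hk.2⟩
    exact_mod_cast a1.trans h
  have e2 : W.card ≤ K n * (H + 1) ^ (ff (L, n) - 1) := by
    refine e1.trans (Nat.mul_le_mul_left _ (Nat.pow_le_pow_right (by omega) ?_))
    have := expo h1 h2
    omega
  have e3 : W.card ≤ K n * (11 * sz (nf L)) ^ (ff (L, n) - 1) * (MM (L, n, H) + 1) ^ (ff (L, n) - 1) := by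
    refine e2.trans ?_
    rw [mul_assoc, ← mul_pow]
    exact Nat.mul_le_mul_left _ (Nat.pow_le_pow_left g3 _)
  have e4 : 2 * (K n * (11 * sz (nf L)) ^ (ff (L, n) - 1) * (MM (L, n, H) + 1) ^ (ff (L, n) - 1))
      < num (L, n, H) := by
    have a1 : num (L, n, H) = (MM (L, n, H) + 1) * (MM (L, n, H) + 1) ^ (ff (L, n) - 1) := by
      unfold num
      rw [← pow_succ', Nat.sub_add_cancel hff1]
    rw [a1, ← mul_assoc]
    refine Nat.mul_lt_mul_of_pos_right ?_ (by positivity)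
    unfold mm at g1
    simp only at g1
    have : 2 * (K n * (11 * sz (nf L)) ^ (ff (L, n) - 1)) =
      2 * K n * (11 * sz (nf L)) ^ (ff (L, n) - 1) := by ring
    omega
  have e5 : Q324.SC.cnt (fun j => decide (Gd (cd ((L, n, H), j)))) (num (L, n, H)) + W.card =
      num (L, n, H) := by
    rw [cnt_eq, hW]
    simp only [decide_eq_true_eq]
    rw [Finset.card_filter_add_card_filter_not, Finset.card_range]
  omega

/-- **Bounded advice and few failures.** -/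
theorem advice (k : ℕ) {A : ℕ × LL →. Bool} {K g : ℕ → ℕ} {r : ℕ × ℕ → Bool} (hA : Partrec A)
    (hK : Computable K) (hg : Computable g) (hr : Computable r)
    (hdens : ∀ m, ∃ n, m ≤ n ∧ m ≤ g n ∧ ∀ B, ∃ H ≥ B, r (n, H) = true)
    (h : ∀ n H : ℕ, r (n, H) = true → ∃ i < k,
      {L | L ∈ Box n H ∧ ¬ ∃ b ∈ A (i, L), (b = true ↔ Inf L)}.encard
        ≤ ((K n * (H + 1) ^ ((n + 1) ^ 2 - g n * (n + 1)) : ℕ) : ℕ∞)) : ComputablePred Inf := by
  classical
  -- the search for a good stage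
  let p : ℕ → ℕ → Bool := fun N t => decide (N ≤ t.unpair.1) && (decide (N ≤ g t.unpair.1) &&
    (r (t.unpair.1, t.unpair.2) && decide (Tz.sm (vv K) t.unpair.1 (t.unpair.1 + 1) ≤ t.unpair.2)))
  have hp : Computable₂ p := by
    have h0 : Primrec (fun y : ℕ × ℕ => decide (y.1 ≤ y.2)) := by fun_prop
    have u1 : Computable (fun z : ℕ × ℕ => z.2.unpair.1) :=
      (Primrec.fst.comp (Primrec.unpair.comp Primrec.snd)).to_comp
    have u2 : Computable (fun z : ℕ × ℕ => z.2.unpair.2) :=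
      (Primrec.snd.comp (Primrec.unpair.comp Primrec.snd)).to_comp
    have a1 : Computable (fun z : ℕ × ℕ => decide (z.1 ≤ z.2.unpair.1)) :=
      Computable.comp (f := fun y : ℕ × ℕ => decide (y.1 ≤ y.2))
        (g := fun z : ℕ × ℕ => (z.1, z.2.unpair.1)) h0.to_comp (Computable.fst.pair u1)
    have a2 : Computable (fun z : ℕ × ℕ => decide (z.1 ≤ g z.2.unpair.1)) :=
      Computable.comp (f := fun y : ℕ × ℕ => decide (y.1 ≤ y.2))
        (g := fun z : ℕ × ℕ => (z.1, g z.2.unpair.1)) h0.to_comp (Computable.fst.pair (hg.comp u1))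
    have a3 : Computable (fun z : ℕ × ℕ => r (z.2.unpair.1, z.2.unpair.2)) := hr.comp (u1.pair u2)
    have a4 : Computable (fun z : ℕ × ℕ => Tz.sm (vv K) z.2.unpair.1 (z.2.unpair.1 + 1)) :=
      Computable.comp (f := fun N : ℕ => Tz.sm (vv K) N (N + 1))
        (g := fun z : ℕ × ℕ => z.2.unpair.1) (Tz.sm_comp (vv_comp hK)) u1
    have a5 : Computable (fun z : ℕ × ℕ =>
        decide (Tz.sm (vv K) z.2.unpair.1 (z.2.unpair.1 + 1) ≤ z.2.unpair.2)) :=
      Computable.comp (f := fun y : ℕ × ℕ => decide (y.1 ≤ y.2))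
        (g := fun z : ℕ × ℕ => (Tz.sm (vv K) z.2.unpair.1 (z.2.unpair.1 + 1), z.2.unpair.2))
        h0.to_comp (a4.pair u2)
    exact Primrec.and.to_comp.comp a1 (Primrec.and.to_comp.comp a2 (Primrec.and.to_comp.comp a3 a5))
  obtain ⟨f, hf, hf'⟩ := exists_computable_find hp fun N => by
    obtain ⟨n, h1, h2, h3⟩ := hdens N
    obtain ⟨H, h4, h5⟩ := h3 (Tz.sm (vv K) n (n + 1))
    refine ⟨Nat.pair n H, ?_⟩
    simp only [p, Nat.unpair_pair, Bool.and_eq_true, decide_eq_true_eq]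
    exact ⟨h1, h2, h5, h4⟩
  obtain ⟨σ, hσ⟩ : ∃ σ : ℕ → ℕ × ℕ, σ = fun N => ((f N).unpair.1, (f N).unpair.2) := ⟨_, rfl⟩
  have cσ : Computable σ := by
    rw [hσ]
    exact (Computable.fst.comp (Computable.unpair.comp hf)).pair
      (Computable.snd.comp (Computable.unpair.comp hf))
  have hσ2 : ∀ N, N ≤ (σ N).1 ∧ N ≤ g (σ N).1 ∧ r (σ N) = true ∧
      Tz.sm (vv K) (σ N).1 ((σ N).1 + 1) ≤ (σ N).2 := by
    intro N
    have h1 := hf' N
    simp only [p, Bool.and_eq_true, decide_eq_true_eq] at h1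
    rw [hσ]
    exact h1
  have cst : Computable (fun x : LL × ℕ => (x.1, σ x.2)) :=
    Computable.fst.pair (cσ.comp Computable.snd)
  refine self_correction k hA
    (adm := fun x => @decide (okk g K (x.1, σ x.2)) (Classical.propDecidable _))
    (cand := fun z => cd ((z.1.1, σ z.1.2), z.2)) (num := fun x => num (x.1, σ x.2))
    ?_ ?_ ?_ (fun L => ?_) (fun L N j hj => ?_) (fun N => ?_)
  · exact Computable.comp
      (f := fun y : LL × ℕ × ℕ => @decide (okk g K y) (Classical.propDecidable _))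
      (g := fun x : LL × ℕ => (x.1, σ x.2)) (ok_comp hg hK) cst
  · exact Computable.comp (f := cd) (g := fun z : (LL × ℕ) × ℕ => ((z.1.1, σ z.1.2), z.2))
      cd_primrec.to_comp ((cst.comp Computable.fst).pair Computable.snd)
  · exact Computable.comp (f := num) (g := fun x : LL × ℕ => (x.1, σ x.2)) num_primrec.to_comp cst
  · filter_upwards [eventually_ge_atTop (2 * (dg (nf L) + 1) + encode L)] with N hN
    refine decide_eq_true ?_
    obtain ⟨h1, h2, _, h4⟩ := hσ2 N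
    refine ⟨?_, ?_, ?_⟩
    · change dg (nf L) ≤ (σ N).1
      omega
    · change 2 * (dg (nf L) + 1) ≤ g (σ N).1
      omega
    · exact (Tz.le_sm (vv K) (σ N).1 L ((σ N).1 + 1) (by omega)).trans h4
  · have hok : okk g K (L, σ N) := of_decide_eq_true hj
    exact (inf_cand (ee_le (x := (L, (σ N).1)) hok.1)).trans (inf_nf L)
  · obtain ⟨_, _, h3, _⟩ := hσ2 N
    obtain ⟨i, hi, hi2⟩ := h (σ N).1 (σ N).2 h3
    refine ⟨i, hi, fun L hL Gd _ hGd => ?_⟩
    have hok : okk g K (L, σ N) := of_decide_eq_true hL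
    refine vote (y := (L, σ N)) hok (Gd := Gd) ?_
    have h1 : {L' | L' ∈ Box (σ N).1 (σ N).2 ∧ ¬ Gd L'} =
        {L' | L' ∈ Box (σ N).1 (σ N).2 ∧ ¬ ∃ b ∈ A (i, L'), (b = true ↔ Inf L')} := by
      ext L'
      simp only [Set.mem_ofPred_eq, hGd]
    change {L' | L' ∈ Box (σ N).1 (σ N).2 ∧ ¬ Gd L'}.encard ≤ _
    rw [h1]
    exact hi2

end Pool.Agent.H201.AD.Poly2
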