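import Mathlib

/-!
# Primes, the prime counting function and factorials are computable
-/

set_option autoImplicit false

namespace Pool.Agent.H201.AD

open Nat

lemma primrec_dvd : PrimrecRel fun m p : ℕ => m ∣ p := by
  have h1 : Primrec fun z : ℕ × ℕ => z.2 % z.1 := Primrec.nat_mod.comp Primrec.snd Primrec.fst
  have h2 : PrimrecPred fun z : ℕ × ℕ => z.2 % z.1 = 0 := Primrec.eq.comp h1 (Primrec.const 0)
  exact h2.of_eq fun z => (Nat.dvd_iff_mod_eq_zero).symm

lemma primrec_prime : PrimrecPred Nat.Prime := by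
  have h1 : PrimrecRel fun m p : ℕ => ¬ (m ∣ p) ∨ m = 1 := by
    have a1 : PrimrecPred fun z : ℕ × ℕ => ¬ (z.1 ∣ z.2) := PrimrecPred.not primrec_dvd
    have a2 : PrimrecPred fun z : ℕ × ℕ => z.1 = 1 := Primrec.eq.comp Primrec.fst (Primrec.const 1)
    exact PrimrecPred.or a1 a2
  have h2 : PrimrecRel fun n p : ℕ => ∀ m < n, ¬ (m ∣ p) ∨ m = 1 := h1.forall_lt
  have h3 : PrimrecPred fun p : ℕ => ∀ m < p, ¬ (m ∣ p) ∨ m = 1 := h2.comp Primrec.id Primrec.id
  have h4 : PrimrecPred fun p : ℕ => 2 ≤ p := Primrec.nat_le.comp (Primrec.const 2) Primrec.id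
  refine (PrimrecPred.and h4 h3).of_eq fun p => ?_
  rw [Nat.prime_def_lt]
  refine and_congr Iff.rfl (forall₂_congr fun m _ => ?_)
  tauto

lemma primrec_factorial : Primrec Nat.factorial := by
  have h1 : Primrec₂ fun (_ : ℕ) (y : ℕ × ℕ) => (y.1 + 1) * y.2 :=
    Primrec.nat_mul.comp (Primrec.succ.comp (Primrec.fst.comp Primrec.snd))
      (Primrec.snd.comp Primrec.snd)
  refine (Primrec.nat_rec' (f := fun n : ℕ => n) (g := fun _ => 1) Primrec.id (Primrec.const 1)
    h1).of_eq fun n => ?_
  induction n with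
  | zero => rfl
  | succ n ih =>
    simp only [Nat.factorial] at ih ⊢
    rw [← ih]

lemma primrec_primeCounting : Primrec Nat.primeCounting := by
  classical
  have h0 : Primrec fun n : ℕ => (if Nat.Prime n then 1 else 0 : ℕ) :=
    Primrec.ite primrec_prime (Primrec.const 1) (Primrec.const 0)
  have h1 : Primrec₂ fun (_ : ℕ) (y : ℕ × ℕ) => y.2 + (if Nat.Prime (y.1 + 1) then 1 else 0 : ℕ) :=
    Primrec.nat_add.comp (Primrec.snd.comp Primrec.snd)
      (h0.comp (Primrec.succ.comp (Primrec.fst.comp Primrec.snd)))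
  refine (Primrec.nat_rec' (f := fun n : ℕ => n) (g := fun _ => 0) Primrec.id (Primrec.const 0)
    h1).of_eq fun n => ?_
  induction n with
  | zero => simp
  | succ n ih =>
    simp only at ih ⊢
    rw [ih]
    simp only [Nat.primeCounting, Nat.primeCounting']
    rw [Nat.count_succ Nat.Prime (n + 1)]

lemma primeFactors_factorial (j : ℕ) :
    (j !).primeFactors = (Finset.range (j + 1)).filter Nat.Prime := by
  ext p
  simp only [Nat.mem_primeFactors, Finset.mem_filter, Finset.mem_range]
  constructor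
  · rintro ⟨h1, h2, _⟩
    exact ⟨Nat.lt_succ_of_le ((Nat.Prime.dvd_factorial h1).1 h2), h1⟩
  · rintro ⟨h1, h2⟩
    exact ⟨h2, (Nat.Prime.dvd_factorial h2).2 (Nat.le_of_lt_succ h1), Nat.factorial_ne_zero j⟩

lemma card_primeFactors_factorial (j : ℕ) : (j !).primeFactors.card = Nat.primeCounting j := by
  rw [primeFactors_factorial, Nat.primeCounting, Nat.primeCounting', Nat.count_eq_card_filter_range]

lemma primeCounting_le (j : ℕ) : Nat.primeCounting j ≤ j := by
  rw [← card_primeFactors_factorial, primeFactors_factorial]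
  have h1 : (Finset.range (j + 1)).filter Nat.Prime ⊆ (Finset.range (j + 1)).erase 0 := by
    intro p hp
    rw [Finset.mem_filter] at hp
    exact Finset.mem_erase.2 ⟨hp.2.ne_zero, hp.1⟩
  refine (Finset.card_le_card h1).trans ?_
  rw [Finset.card_erase_of_mem (by simp), Finset.card_range]
  omega

/-- the new primes -/
lemma card_new_primes {i j M : ℕ} (h : i ≤ j) (hM : j ! = i ! * M) :
    Nat.primeCounting j ≤
      Nat.primeCounting i + ((i ! * M).primeFactors \ (i !).primeFactors).card := by
  rw [← hM, ← card_primeFactors_factorial, ← card_primeFactors_factorial]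
  have h1 : (i !).primeFactors ⊆ (j !).primeFactors :=
    Nat.primeFactors_mono (Nat.factorial_dvd_factorial h) (Nat.factorial_ne_zero j)
  have h2 := Finset.card_sdiff_add_card_eq_card h1
  omega

end Pool.Agent.H201.AD
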