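import Pool.Agent.H201.AD.Mind
import Pool.Agent.H201.AD.Primes

/-!
# Bounded advice with few exceptions
-/

set_option autoImplicit false

namespace Pool.Agent.H201.AD

lemma primrec_two_pow : Primrec fun n : ℕ => 2 ^ n := by
  have h1 : Primrec₂ fun (_ : ℕ) (y : ℕ × ℕ) => y.2 * 2 :=
    Primrec.nat_mul.comp (Primrec.snd.comp Primrec.snd) (Primrec.const 2)
  refine (Primrec.nat_rec' (f := fun n : ℕ => n) (g := fun _ => 1) Primrec.id
    (Primrec.const 1) h1).of_eq fun n => ?_
  induction n with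
  | zero => rfl
  | succ n ih =>
    simp only at ih ⊢
    rw [pow_succ, ← ih]

lemma computable_two_pow_primeCounting : Computable fun j => 2 ^ Nat.primeCounting j :=
  (primrec_two_pow.comp primrec_primeCounting).to_comp

/-- **Bounded advice with few exceptions.** `P i c`: the number `c` is a bound at stage `i`.
`E j c e`: it is a bound at stage `j` with at most `e` exceptions. -/
theorem bounded_of_advice_exceptions (P : ℕ → ℕ → Prop) (E : ℕ → ℕ → ℕ → Prop) (w μ : ℕ → ℕ)
    (hw : Computable w) (hμ : Computable μ) (τ : (ℕ × ℕ) × ℕ → ℕ) (hτ : Computable τ)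
    (hmono : ∀ i c c', c ≤ c' → P i c → P i c')
    (hdown : ∀ i j c, i ≤ j → P j c → P i c)
    (hamp : ∀ i j c e, i ≤ j → μ i * e < w j → E j c e → P i (τ ((i, j), c)))
    (k : ℕ) (e : ℕ → ℕ) (he : Computable e) (r : ℕ → Bool) (hr : Computable r)
    (F : ℕ × ℕ →. ℕ) (hF : Partrec F)
    (hdens : ∀ m, ∃ j ≥ m, r j = true ∧ 2 ^ m * e j < w j)
    (hadv : ∀ j, r j = true → ∃ b < k, ∃ c ∈ F (j, b), E j c (e j)) :
    ∃ C : ℕ → ℕ, Computable C ∧ ∀ i, P i (C i) := by
  -- the search for a good stage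
  let p : ℕ → ℕ → Bool := fun m j =>
    decide (m ≤ j) && (r j && decide (μ m * e j + 1 ≤ w j))
  have hp : Computable₂ p := by
    have a1 : Computable fun z : ℕ × ℕ => decide (z.1 ≤ z.2) := computable_decide_le
    have a2 : Computable fun z : ℕ × ℕ => r z.2 := hr.comp Computable.snd
    have a3 : Computable fun z : ℕ × ℕ => μ z.1 := hμ.comp Computable.fst
    have a4 : Computable fun z : ℕ × ℕ => e z.2 := he.comp Computable.snd
    have a5 : Computable fun z : ℕ × ℕ => μ z.1 * e z.2 :=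
      (Primrec.nat_mul.to_comp).comp a3 a4
    have a6 : Computable fun z : ℕ × ℕ => μ z.1 * e z.2 + 1 := Computable.succ.comp a5
    have a7 : Computable fun z : ℕ × ℕ => (μ z.1 * e z.2 + 1, w z.2) :=
      Computable.pair a6 (hw.comp Computable.snd)
    have a8 : Computable fun z : ℕ × ℕ => decide (μ z.1 * e z.2 + 1 ≤ w z.2) :=
      (computable_decide_le.comp a7).of_eq fun z => rfl
    have a9 : Computable fun z : ℕ × ℕ => (r z.2 && decide (μ z.1 * e z.2 + 1 ≤ w z.2)) :=
      (Primrec.and.to_comp).comp a2 a8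
    have a10 : Computable fun z : ℕ × ℕ =>
        (decide (z.1 ≤ z.2) && (r z.2 && decide (μ z.1 * e z.2 + 1 ≤ w z.2))) :=
      (Primrec.and.to_comp).comp a1 a9
    exact a10
  obtain ⟨ρ, hρ, hρ'⟩ := exists_computable_find hp fun i => by
    obtain ⟨j, h1, h2, h3⟩ := hdens (max i (μ i))
    refine ⟨j, ?_⟩
    simp only [p, Bool.and_eq_true, decide_eq_true_eq]
    refine ⟨(le_max_left _ _).trans h1, h2, lt_of_le_of_lt (Nat.mul_le_mul_right _ ?_) h3⟩
    exact (le_max_right i (μ i)).trans (Nat.lt_two_pow_self).le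
  have hρ2 : ∀ m, m ≤ ρ m ∧ r (ρ m) = true ∧ μ m * e (ρ m) < w (ρ m) := by
    intro m
    have h := hρ' m
    simp only [p, Bool.and_eq_true, decide_eq_true_eq] at h
    exact ⟨h.1, h.2.1, h.2.2⟩
  have hF' : Partrec fun a : ℕ × ℕ => (F (ρ a.1, a.2)).map fun c => τ ((a.1, ρ a.1), c) := by
    have h1 : Computable fun a : ℕ × ℕ => (ρ a.1, a.2) :=
      Computable.pair (hρ.comp Computable.fst) Computable.snd
    have h2 : Partrec fun a : ℕ × ℕ => F (ρ a.1, a.2) := hF.comp h1
    have h3 : Computable fun z : (ℕ × ℕ) × ℕ => z.1.1 := Computable.fst.comp Computable.fst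
    have h4 : Computable fun z : (ℕ × ℕ) × ℕ => ((z.1.1, ρ z.1.1), z.2) :=
      Computable.pair (Computable.pair h3 (hρ.comp h3)) Computable.snd
    have h5 : Computable₂ fun (a : ℕ × ℕ) (c : ℕ) => τ ((a.1, ρ a.1), c) := hτ.comp h4
    exact Partrec.map h2 h5
  have ht : Computable fun a : ℕ × ℕ × ℕ => a.2.2 := Computable.snd.comp Computable.snd
  refine bounded_of_advice hF' k P hmono (fun a => a.2.2) ht (fun i j c h h' => hdown i j c h h')
    fun i => ?_
  obtain ⟨h1, h2, h3⟩ := hρ2 i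
  obtain ⟨b, hb, c, hc, hE⟩ := hadv _ h2
  refine ⟨b, hb, τ ((i, ρ i), c), ?_, hamp i _ c _ h1 h3 hE⟩
  exact Part.mem_map (fun c => τ ((i, ρ i), c)) hc

/-- The same with a limit procedure which changes its mind at most `k` times. -/
theorem bounded_of_mind_changes_exceptions (E : ℕ → ℕ → ℕ → Prop)
    (k : ℕ) (e : ℕ → ℕ) (r : ℕ → Bool) (G : ℕ × ℕ → ℕ) (hG : Computable G)
    (hadv : ∀ j, r j = true → ∃ s₀, (∀ s ≥ s₀, G (j, s) = G (j, s₀)) ∧
      {s | G (j, s + 1) ≠ G (j, s)}.ncard ≤ k ∧ E j (G (j, s₀)) (e j)) :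
    ∃ F : ℕ × ℕ →. ℕ, Partrec F ∧
      ∀ j, r j = true → ∃ b < k + 1, ∃ c ∈ F (j, b), E j c (e j) := by
  obtain ⟨F, hF, h⟩ := guesses_of_mind_changes hG
  refine ⟨F, hF, fun j hj => ?_⟩
  obtain ⟨s₀, h1, h2, h3⟩ := hadv j hj
  obtain ⟨b, hb, hc⟩ := h k j s₀ h1 h2
  exact ⟨b, hb, _, hc, h3⟩

/-- the maximum of `f z i` for `i ≤ n` -/
def mxx {α : Type*} (f : α × ℕ → ℕ) (z : α) : ℕ → ℕ
  | 0 => f (z, 0)
  | n + 1 => max (mxx f z n) (f (z, n + 1))

lemma le_mxx {α : Type*} (f : α × ℕ → ℕ) (z : α) {i n : ℕ} (h : i ≤ n) : f (z, i) ≤ mxx f z n := by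
  induction n with
  | zero =>
    obtain rfl : i = 0 := by omega
    exact le_rfl
  | succ n ih =>
    rcases Nat.lt_or_ge n i with h1 | h1
    · obtain rfl : i = n + 1 := by omega
      exact le_max_right _ _
    · exact (ih h1).trans (le_max_left _ _)

lemma mxx_computable {α : Type*} [Primcodable α] {f : α × ℕ → ℕ} (hf : Computable f) :
    Computable fun z : α × ℕ => mxx f z.1 z.2 := by
  have h1 : Computable fun z : α × ℕ => f (z.1, 0) :=
    hf.comp (Computable.pair Computable.fst (Computable.const 0))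
  have h2 : Computable₂ fun (z : α × ℕ) (y : ℕ × ℕ) => max y.2 (f (z.1, y.1 + 1)) := by
    have a1 : Computable fun w : (α × ℕ) × (ℕ × ℕ) => f (w.1.1, w.2.1 + 1) :=
      hf.comp (Computable.pair (Computable.fst.comp Computable.fst)
        (Computable.succ.comp (Computable.fst.comp Computable.snd)))
    exact (Primrec.nat_max.to_comp).comp (Computable.snd.comp Computable.snd) a1
  refine (Computable.nat_rec Computable.snd h1 h2).of_eq fun z => ?_
  obtain ⟨z, n⟩ := z
  induction n with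
  | zero => rfl
  | succ n ih =>
    simp only at ih ⊢
    rw [ih]
    rfl

end Pool.Agent.H201.AD
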