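import Pool.Graph.R_pool_sql_team_seeded_2aa45f1a.Q324.SC.PlaneMain
import Pool.Graph.R_pool_sql_team_seeded_2aa45f1a.Q324.SC.IntOps

/-!
# Products of a polynomial in two variables with positive polynomials
-/

set_option autoImplicit false

namespace Pool.Agent.H201.AD.Poly2

open Pool.Agent.Q324.SC (dig dig_le eq_sum_dig sum_range_list)

/-- coefficients -/
def co (L : List (List ℤ)) (i j : ℕ) : ℤ := (L.getD i []).getD j 0

/-- the value -/
def val (L : List (List ℤ)) (x y : ℚ) : ℚ :=
  ∑ i ∈ Finset.range L.length, ∑ j ∈ Finset.range (L.getD i []).length,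
    (((L.getD i []).getD j 0 : ℤ) : ℚ) * x ^ i * y ^ j

/-- a bound for the degrees -/
def dg (L : List (List ℤ)) : ℕ := L.length + (L.map List.length).sum

/-- the sum of the absolute values of the coefficients -/
def sz (L : List (List ℤ)) : ℕ := (L.map fun l => (l.map Int.natAbs).sum).sum

/-- values in a commutative ring -/
def ev2 {R : Type*} [CommRing R] (n : ℕ) (c : ℕ → ℕ → ℤ) (x y : R) : R :=
  ∑ i ∈ Finset.range n, ∑ j ∈ Finset.range n, (c i j : R) * x ^ i * y ^ j

lemma getD_length_le (L : List (List ℤ)) (i : ℕ) :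
    (L.getD i []).length ≤ (L.map List.length).sum := by
  by_cases h : i < L.length
  · rw [List.getD_eq_getElem _ _ h]
    exact List.le_sum_of_mem (List.mem_map.2 ⟨_, List.getElem_mem h, rfl⟩)
  · rw [List.getD_eq_default _ _ (not_lt.1 h)]
    exact Nat.zero_le _

lemma co_zero {L : List (List ℤ)} {i j : ℕ} (h : dg L ≤ i ∨ dg L ≤ j) : co L i j = 0 := by
  unfold co
  by_cases hi : i < L.length
  · have h1 := getD_length_le L i
    unfold dg at h
    exact List.getD_eq_default _ _ (by omega)
  · rw [List.getD_eq_default L _ (not_lt.1 hi)]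
    rfl

lemma val_eq {L : List (List ℤ)} (x y : ℚ) : val L x y = ev2 (dg L) (co L) x y := by
  unfold val ev2
  have h1 : ∀ i, ∑ j ∈ Finset.range (L.getD i []).length,
      (((L.getD i []).getD j 0 : ℤ) : ℚ) * x ^ i * y ^ j
      = ∑ j ∈ Finset.range (dg L), ((co L i j : ℤ) : ℚ) * x ^ i * y ^ j := by
    intro i
    refine Finset.sum_subset ?_ ?_
    · intro j hj
      rw [Finset.mem_range] at *
      have := getD_length_le L i
      unfold dg
      omega
    · intro j _ hj
      rw [Finset.mem_range, not_lt] at hj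
      have : (L.getD i []).getD j 0 = 0 := List.getD_eq_default _ _ hj
      rw [this]
      simp
  rw [Finset.sum_congr rfl fun i _ => h1 i]
  refine Finset.sum_subset ?_ ?_
  · intro i hi
    rw [Finset.mem_range] at *
    unfold dg
    omega
  · intro i _ hi
    rw [Finset.mem_range, not_lt] at hi
    refine Finset.sum_eq_zero fun j _ => ?_
    have : co L i j = 0 := by
      unfold co
      rw [List.getD_eq_default L _ hi]
      rfl
    rw [this]
    simp

lemma sum_abs_le (L : List (List ℤ)) :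
    ∑ a ∈ Finset.range (dg L), ∑ b ∈ Finset.range (dg L), (co L a b).natAbs ≤ sz L := by
  have h0 : ∀ (l : List ℤ) (n : ℕ), ∑ b ∈ Finset.range n, (l.getD b 0).natAbs
      ≤ (l.map Int.natAbs).sum := by
    intro l
    induction l with
    | nil => intro n; simp
    | cons t l ih =>
      intro n
      rcases n with _ | n
      · simp
      · rw [Finset.sum_range_succ']
        simp only [List.getD_cons_succ, List.getD_cons_zero, List.map_cons, List.sum_cons]
        have := ih n
        omega
  have h1 : ∀ (L : List (List ℤ)) (n m : ℕ), ∑ a ∈ Finset.range n, ∑ b ∈ Finset.range m,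
      ((L.getD a []).getD b 0).natAbs ≤ (L.map fun l => (l.map Int.natAbs).sum).sum := by
    intro L
    induction L with
    | nil => intro n m; simp
    | cons l L ih =>
      intro n m
      rcases n with _ | n
      · simp
      · rw [Finset.sum_range_succ']
        simp only [List.getD_cons_succ, List.getD_cons_zero, List.map_cons, List.sum_cons]
        have h2 := ih n m
        have h3 := h0 l m
        omega
  exact h1 L _ _

lemma exists_co_ne {L : List (List ℤ)} (h : sz L ≠ 0) : ∃ i j, co L i j ≠ 0 := by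
  unfold sz at h
  have h1 : ∃ l ∈ L, (l.map Int.natAbs).sum ≠ 0 := by
    by_contra hcon
    push Not at hcon
    refine h (List.sum_eq_zero fun x hx => ?_)
    obtain ⟨l, hl, rfl⟩ := List.mem_map.1 hx
    exact hcon l hl
  obtain ⟨l, hl, h2⟩ := h1
  have h3 : ∃ t ∈ l, t.natAbs ≠ 0 := by
    by_contra hcon
    push Not at hcon
    refine h2 (List.sum_eq_zero fun x hx => ?_)
    obtain ⟨t, ht, rfl⟩ := List.mem_map.1 hx
    exact hcon t ht
  obtain ⟨t, ht, h4⟩ := h3
  obtain ⟨i, hi, rfl⟩ := List.getElem_of_mem hl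
  obtain ⟨j, hj, rfl⟩ := List.getElem_of_mem ht
  refine ⟨i, j, ?_⟩
  unfold co
  rw [List.getD_eq_getElem _ _ hi, List.getD_eq_getElem _ _ hj]
  intro h5
  exact h4 (by rw [h5]; rfl)

/-- coefficients of the positive polynomial number `k` -/
def hc (e M k a b : ℕ) : ℕ :=
  bif decide (a ≤ 2 * e) && decide (b ≤ 2 * e) then
    dig M k (a + (2 * e + 1) * b) +
      (bif decide (a % 2 = 0) && decide (b % 2 = 0) then 9 * M + 1 else 0)
  else 0

/-- weights -/
def wt (e M k i j a b : ℕ) : ℕ :=
  bif decide (a ≤ i) && decide (b ≤ j) then hc e M k (i - a) (j - b) else 0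

/-- coefficients of the product -/
def cf (L : List (List ℤ)) (e M k i j : ℕ) : ℤ :=
  ((List.range (dg L)).map fun a => ((List.range (dg L)).map fun b =>
    co L a b * (wt e M k i j a b : ℤ)).sum).sum

/-- the polynomial with coefficients `c i j`, `i, j ≤ n` -/
def grid (n : ℕ) (c : ℕ → ℕ → ℤ) : List (List ℤ) :=
  (List.range (n + 1)).map fun i => (List.range (n + 1)).map fun j => c i j

/-- the product -/
def cand (L : List (List ℤ)) (e n M k : ℕ) : List (List ℤ) := grid n (cf L e M k)

lemma cf_eq (L : List (List ℤ)) (e M k i j : ℕ) : cf L e M k i j =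
    ∑ a ∈ Finset.range (dg L), ∑ b ∈ Finset.range (dg L), co L a b * (wt e M k i j a b : ℤ) := by
  unfold cf
  rw [sum_range_list]
  refine Finset.sum_congr rfl fun a _ => ?_
  rw [sum_range_list]

lemma co_grid {n : ℕ} {c : ℕ → ℕ → ℤ} {i j : ℕ} (hi : i ≤ n) (hj : j ≤ n) :
    co (grid n c) i j = c i j := by
  have h1 : (grid n c).getD i [] = (List.range (n + 1)).map fun j => c i j := by
    unfold grid
    rw [List.getD_eq_getElem _ _ (by simp; omega)]
    simp
  unfold co
  rw [h1, List.getD_eq_getElem _ _ (by simp; omega)]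
  simp

lemma grid_inj {n : ℕ} {c c' : ℕ → ℕ → ℤ} (h : grid n c = grid n c') {i j : ℕ} (hi : i ≤ n)
    (hj : j ≤ n) : c i j = c' i j := by
  rw [← co_grid (c := c) hi hj, ← co_grid (c := c') hi hj, h]

lemma val_grid (n : ℕ) (c : ℕ → ℕ → ℤ) (x y : ℚ) : val (grid n c) x y = ev2 (n + 1) c x y := by
  unfold val ev2
  have hl : (grid n c).length = n + 1 := by simp [grid]
  rw [hl]
  refine Finset.sum_congr rfl fun i hi => ?_
  rw [Finset.mem_range] at hi
  have h1 : (grid n c).getD i [] = (List.range (n + 1)).map fun j => c i j := by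
    unfold grid
    rw [List.getD_eq_getElem _ _ (by simp; omega)]
    simp
  rw [h1]
  simp only [List.length_map, List.length_range]
  refine Finset.sum_congr rfl fun j hj => ?_
  rw [Finset.mem_range] at hj
  rw [List.getD_eq_getElem _ _ (by simp; omega)]
  simp

section ring

variable {R : Type*} [CommRing R]

lemma shift_sum {e n a : ℕ} (h : a + e ≤ n) (f : ℕ → R) (hf : ∀ i, e < i → f i = 0) (x : R) :
    ∑ i ∈ Finset.range (n + 1), (if a ≤ i then f (i - a) else 0) * x ^ i
      = x ^ a * ∑ i ∈ Finset.range (e + 1), f i * x ^ i := by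
  have h1 : n + 1 = a + (n + 1 - a) := by omega
  rw [h1, Finset.sum_range_add]
  have h2 : ∑ i ∈ Finset.range a, (if a ≤ i then f (i - a) else 0) * x ^ i = 0 := by
    refine Finset.sum_eq_zero fun i hi => ?_
    rw [if_neg (by have := Finset.mem_range.1 hi; omega), zero_mul]
  rw [h2, zero_add, Finset.mul_sum]
  have h3 : ∀ i, (if a ≤ a + i then f (a + i - a) else 0) * x ^ (a + i) = x ^ a * (f i * x ^ i) := by
    intro i
    rw [if_pos (by omega), Nat.add_sub_cancel_left, pow_add]
    ring
  simp only [h3]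
  symm
  refine Finset.sum_subset ?_ ?_
  · intro i hi
    rw [Finset.mem_range] at *
    omega
  · intro i _ hi
    rw [Finset.mem_range] at hi
    rw [hf i (by omega)]
    ring

lemma hc_zero {e M k i j : ℕ} (h : 2 * e < i ∨ 2 * e < j) : hc e M k i j = 0 := by
  unfold hc
  have h2 : (decide (i ≤ 2 * e) && decide (j ≤ 2 * e)) = false := by
    rw [Bool.eq_false_iff]
    simp only [ne_eq, Bool.and_eq_true, decide_eq_true_eq]
    omega
  rw [h2]
  rfl

lemma wt_sum {e n M k a b : ℕ} (ha : a + 2 * e ≤ n) (hb : b + 2 * e ≤ n) (x y : R) :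
    ∑ i ∈ Finset.range (n + 1), ∑ j ∈ Finset.range (n + 1), (wt e M k i j a b : R) * x ^ i * y ^ j
      = x ^ a * y ^ b * ev2 (2 * e + 1) (fun a b => (hc e M k a b : ℤ)) x y := by
  have h1 : ∀ i j, (wt e M k i j a b : R) =
      if a ≤ i then (if b ≤ j then (hc e M k (i - a) (j - b) : R) else 0) else 0 := by
    intro i j
    unfold wt
    by_cases h3 : a ≤ i <;> by_cases h4 : b ≤ j <;> simp [h3, h4]
  have h2 : ∀ i, ∑ j ∈ Finset.range (n + 1), (wt e M k i j a b : R) * x ^ i * y ^ j
      = (if a ≤ i then y ^ b * ∑ j ∈ Finset.range (2 * e + 1), (hc e M k (i - a) j : R) * y ^ j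
          else 0) * x ^ i := by
    intro i
    by_cases h3 : a ≤ i
    · rw [if_pos h3]
      have h4 := shift_sum (e := 2 * e) (n := n) (a := b) hb (fun j => (hc e M k (i - a) j : R))
        (fun j hj => by rw [hc_zero (Or.inr hj)]; simp) y
      rw [← h4, Finset.sum_mul]
      refine Finset.sum_congr rfl fun j _ => ?_
      rw [h1, if_pos h3]
      ring
    · rw [if_neg h3, zero_mul]
      refine Finset.sum_eq_zero fun j _ => ?_
      rw [h1, if_neg h3]
      ring
  rw [Finset.sum_congr rfl fun i _ => h2 i]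
  rw [shift_sum (e := 2 * e) (n := n) (a := a) ha
    (fun i => y ^ b * ∑ j ∈ Finset.range (2 * e + 1), (hc e M k i j : R) * y ^ j)
    (fun i hi => by
      have : ∀ j ∈ Finset.range (2 * e + 1), (hc e M k i j : R) * y ^ j = 0 := by
        intro j _
        rw [hc_zero (Or.inl hi)]
        simp
      rw [Finset.sum_eq_zero this, mul_zero]) x]
  unfold ev2
  rw [mul_assoc (x ^ a), Finset.mul_sum (s := Finset.range (2 * e + 1)) (a := y ^ b)]
  congr 1
  refine Finset.sum_congr rfl fun i _ => ?_
  rw [mul_assoc, Finset.sum_mul]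
  congr 1
  refine Finset.sum_congr rfl fun j _ => ?_
  push_cast
  ring

/-- the product identity -/
lemma prod_id {L : List (List ℤ)} {e n M k : ℕ} (h : dg L + 2 * e ≤ n) (x y : R) :
    ev2 (n + 1) (cf L e M k) x y =
      ev2 (dg L) (co L) x y * ev2 (2 * e + 1) (fun a b => (hc e M k a b : ℤ)) x y := by
  have h1 : ev2 (n + 1) (cf L e M k) x y = ∑ i ∈ Finset.range (n + 1),
      ∑ j ∈ Finset.range (n + 1), ∑ a ∈ Finset.range (dg L), ∑ b ∈ Finset.range (dg L),
        (co L a b : R) * ((wt e M k i j a b : R) * x ^ i * y ^ j) := by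
    unfold ev2
    refine Finset.sum_congr rfl fun i _ => Finset.sum_congr rfl fun j _ => ?_
    rw [cf_eq]
    push_cast
    rw [mul_assoc, Finset.sum_mul]
    refine Finset.sum_congr rfl fun a _ => ?_
    rw [Finset.sum_mul]
    refine Finset.sum_congr rfl fun b _ => ?_
    ring
  have h2 : ∀ i, ∑ j ∈ Finset.range (n + 1), ∑ a ∈ Finset.range (dg L),
      ∑ b ∈ Finset.range (dg L), (co L a b : R) * ((wt e M k i j a b : R) * x ^ i * y ^ j)
      = ∑ a ∈ Finset.range (dg L), ∑ b ∈ Finset.range (dg L), ∑ j ∈ Finset.range (n + 1),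
        (co L a b : R) * ((wt e M k i j a b : R) * x ^ i * y ^ j) := by
    intro i
    rw [Finset.sum_comm]
    refine Finset.sum_congr rfl fun a _ => ?_
    rw [Finset.sum_comm]
  rw [h1, Finset.sum_congr rfl fun i _ => h2 i, Finset.sum_comm]
  have h3 : ev2 (dg L) (co L) x y * ev2 (2 * e + 1) (fun a b => (hc e M k a b : ℤ)) x y
      = ∑ a ∈ Finset.range (dg L), ∑ b ∈ Finset.range (dg L), (co L a b : R) *
        (x ^ a * y ^ b * ev2 (2 * e + 1) (fun a b => (hc e M k a b : ℤ)) x y) := by
    conv_lhs => rw [ev2]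
    rw [Finset.sum_mul]
    refine Finset.sum_congr rfl fun a _ => ?_
    rw [Finset.sum_mul]
    refine Finset.sum_congr rfl fun b _ => ?_
    ring
  rw [h3]
  refine Finset.sum_congr rfl fun a ha => ?_
  rw [Finset.sum_comm]
  refine Finset.sum_congr rfl fun b hb => ?_
  rw [Finset.mem_range] at ha hb
  rw [← wt_sum (n := n) (by omega) (by omega) x y, Finset.mul_sum]
  refine Finset.sum_congr rfl fun i _ => ?_
  rw [Finset.mul_sum]

end ring

section poly

open Polynomial

lemma ev2_poly (n : ℕ) (c : ℕ → ℕ → ℤ) {i j : ℕ} (hi : i < n) (hj : j < n) :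
    ((ev2 n c (X : ℤ[X][X]) (C X)).coeff i).coeff j = c i j := by
  have h1 : ev2 n c (X : ℤ[X][X]) (C X) = ∑ i ∈ Finset.range n, ∑ j ∈ Finset.range n,
      monomial i (monomial j (c i j)) := by
    unfold ev2
    refine Finset.sum_congr rfl fun i _ => Finset.sum_congr rfl fun j _ => ?_
    rw [← C_mul_X_pow_eq_monomial, ← C_mul_X_pow_eq_monomial, map_mul, map_pow]
    have h2 : ((c i j : ℤ) : ℤ[X][X]) = C (C (c i j)) := by simp
    rw [h2]
    ring
  rw [h1, finsetSum_coeff, finsetSum_coeff]
  rw [Finset.sum_eq_single i]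
  · rw [finsetSum_coeff, finsetSum_coeff, Finset.sum_eq_single j]
    · simp
    · intro b _ hb
      rw [coeff_monomial, if_pos rfl, coeff_monomial, if_neg hb]
    · intro h
      exact absurd (Finset.mem_range.2 hj) h
  · intro a _ ha
    rw [finsetSum_coeff, finsetSum_coeff]
    refine Finset.sum_eq_zero fun b _ => ?_
    rw [coeff_monomial, if_neg ha]
    simp
  · intro h
    exact absurd (Finset.mem_range.2 hi) h

/-- different numbers give different products -/
lemma cand_inj {L : List (List ℤ)} {e n M : ℕ} (h : dg L + 2 * e ≤ n) (hs : sz L ≠ 0) {k k' : ℕ}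
    (hk : k < (M + 1) ^ ((2 * e + 1) * (2 * e + 1)))
    (hk' : k' < (M + 1) ^ ((2 * e + 1) * (2 * e + 1))) (he : cand L e n M k = cand L e n M k') :
    k = k' := by
  have h1 : ev2 (n + 1) (cf L e M k) (X : ℤ[X][X]) (C X) =
      ev2 (n + 1) (cf L e M k') (X : ℤ[X][X]) (C X) := by
    unfold ev2
    refine Finset.sum_congr rfl fun i hi => Finset.sum_congr rfl fun j hj => ?_
    rw [Finset.mem_range] at hi hj
    rw [grid_inj (c := cf L e M k) (c' := cf L e M k') he (i := i) (j := j) (by omega) (by omega)]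
  rw [prod_id h, prod_id h] at h1
  have h2 : ev2 (dg L) (co L) (X : ℤ[X][X]) (C X) ≠ 0 := by
    obtain ⟨i, j, hij⟩ := exists_co_ne hs
    intro h0
    have hi : i < dg L := by
      by_contra hcon
      exact hij (co_zero (Or.inl (by omega)))
    have hj : j < dg L := by
      by_contra hcon
      exact hij (co_zero (Or.inr (by omega)))
    have h3 := ev2_poly (dg L) (co L) hi hj
    rw [h0] at h3
    simp only [coeff_zero] at h3
    exact hij h3.symm
  have h3 := mul_left_cancel₀ h2 h1
  have h4 : ∀ s < (2 * e + 1) * (2 * e + 1), dig M k s = dig M k' s := by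
    intro s hs'
    have hb : s / (2 * e + 1) < 2 * e + 1 := by
      rw [Nat.div_lt_iff_lt_mul (by omega)]
      exact hs'
    have ha : s % (2 * e + 1) < 2 * e + 1 := Nat.mod_lt _ (by omega)
    have h5 := ev2_poly (2 * e + 1) (fun a b => (hc e M k a b : ℤ)) ha hb
    have h6 := ev2_poly (2 * e + 1) (fun a b => (hc e M k' a b : ℤ)) ha hb
    rw [h3, h6] at h5
    have h7 : hc e M k' (s % (2 * e + 1)) (s / (2 * e + 1)) =
      hc e M k (s % (2 * e + 1)) (s / (2 * e + 1)) := by exact_mod_cast h5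
    have h8 : s % (2 * e + 1) + (2 * e + 1) * (s / (2 * e + 1)) = s := Nat.mod_add_div _ _
    have h9 : (decide (s % (2 * e + 1) ≤ 2 * e) && decide (s / (2 * e + 1) ≤ 2 * e)) = true := by
      simp only [Bool.and_eq_true, decide_eq_true_eq]
      omega
    unfold hc at h7
    rw [h9, h8, cond_true, cond_true] at h7
    omega
  rw [eq_sum_dig M _ k hk, eq_sum_dig M _ k' hk']
  refine Finset.sum_congr rfl fun s hs' => ?_
  rw [h4 s (Finset.mem_range.1 hs')]

end poly

section positive

lemma one_var (x : ℚ) (e : ℕ) : ∑ i ∈ Finset.range (2 * e + 1), |x| ^ i + |x| ^ (2 * e) ≤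
    3 * ∑ i ∈ Finset.range (e + 1), x ^ (2 * i) := by
  induction e with
  | zero => norm_num
  | succ e ih =>
    have h1 : 2 * (e + 1) + 1 = 2 * e + 1 + 1 + 1 := by ring
    rw [h1, Finset.sum_range_succ, Finset.sum_range_succ, Finset.sum_range_succ _ (e + 1)]
    have h2 : |x| ^ (2 * e + 1) ≤ |x| ^ (2 * e) + |x| ^ (2 * e + 2) := by
      have h3 : 0 ≤ |x| ^ (2 * e) := by positivity
      have h4 : |x| ≤ 1 + |x| ^ 2 := by nlinarith [sq_nonneg (|x| - 1), abs_nonneg x]
      calc |x| ^ (2 * e + 1) = |x| ^ (2 * e) * |x| := pow_succ _ _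
        _ ≤ |x| ^ (2 * e) * (1 + |x| ^ 2) := mul_le_mul_of_nonneg_left h4 h3
        _ = |x| ^ (2 * e) + |x| ^ (2 * e + 2) := by ring
    have h5 : x ^ (2 * (e + 1)) = |x| ^ (2 * e + 2) := by
      rw [show 2 * e + 2 = 2 * (e + 1) by ring, pow_mul, pow_mul, sq_abs]
    have h6 : |x| ^ (2 * (e + 1)) = |x| ^ (2 * e + 2) := by
      rw [show 2 * e + 2 = 2 * (e + 1) by ring]
    rw [h5, h6]
    have h7 : |x| ^ (2 * e + 1 + 1) = |x| ^ (2 * e + 2) := by rw [show 2 * e + 1 + 1 = 2 * e + 2 by ring]
    rw [h7]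
    linarith

lemma one_var' (x : ℚ) (e : ℕ) : ∑ i ∈ Finset.range (2 * e + 1), |x| ^ i ≤
    3 * ∑ i ∈ Finset.range (e + 1), x ^ (2 * i) := by
  have h := one_var x e
  have h1 : 0 ≤ |x| ^ (2 * e) := by positivity
  linarith

lemma even_sum (f : ℕ → ℚ) (e : ℕ) :
    ∑ i ∈ Finset.range (2 * e + 1), (if i % 2 = 0 then f i else 0)
      = ∑ i ∈ Finset.range (e + 1), f (2 * i) := by
  induction e with
  | zero => simp
  | succ e ih =>
    have h1 : 2 * (e + 1) + 1 = 2 * e + 1 + 1 + 1 := by ring
    rw [h1, Finset.sum_range_succ, Finset.sum_range_succ, ih, Finset.sum_range_succ _ (e + 1)]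
    rw [if_neg (by omega), if_pos (by omega), add_zero]
    congr 2

lemma hc_pos (e M k : ℕ) (x y : ℚ) : 0 < ev2 (2 * e + 1) (fun a b => (hc e M k a b : ℤ)) x y := by
  obtain ⟨Sx, hSx⟩ : ∃ S, S = ∑ i ∈ Finset.range (e + 1), x ^ (2 * i) := ⟨_, rfl⟩
  obtain ⟨Sy, hSy⟩ : ∃ S, S = ∑ i ∈ Finset.range (e + 1), y ^ (2 * i) := ⟨_, rfl⟩
  have hx1 : 1 ≤ Sx := by
    rw [hSx, Finset.sum_range_succ']
    have : 0 ≤ ∑ i ∈ Finset.range e, x ^ (2 * (i + 1)) :=
      Finset.sum_nonneg fun i _ => by rw [pow_mul]; positivity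
    simp only [mul_zero, pow_zero]
    linarith
  have hy1 : 1 ≤ Sy := by
    rw [hSy, Finset.sum_range_succ']
    have : 0 ≤ ∑ i ∈ Finset.range e, y ^ (2 * (i + 1)) :=
      Finset.sum_nonneg fun i _ => by rw [pow_mul]; positivity
    simp only [mul_zero, pow_zero]
    linarith
  have h1 : ev2 (2 * e + 1) (fun a b => (hc e M k a b : ℤ)) x y
      = ∑ a ∈ Finset.range (2 * e + 1), ∑ b ∈ Finset.range (2 * e + 1),
          (dig M k (a + (2 * e + 1) * b) : ℚ) * x ^ a * y ^ b
        + (9 * M + 1) * (Sx * Sy) := by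
    have h2 : Sx * Sy = ∑ a ∈ Finset.range (2 * e + 1), ∑ b ∈ Finset.range (2 * e + 1),
        (if a % 2 = 0 then x ^ a else 0) * (if b % 2 = 0 then y ^ b else 0) := by
      rw [hSx, hSy, ← even_sum (fun i => x ^ i) e, ← even_sum (fun i => y ^ i) e,
        Finset.sum_mul_sum]
    rw [h2, Finset.mul_sum, ← Finset.sum_add_distrib]
    unfold ev2
    refine Finset.sum_congr rfl fun a ha => ?_
    rw [Finset.mul_sum, ← Finset.sum_add_distrib]
    refine Finset.sum_congr rfl fun b hb => ?_
    rw [Finset.mem_range] at ha hb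
    have h3 : (decide (a ≤ 2 * e) && decide (b ≤ 2 * e)) = true := by
      simp only [Bool.and_eq_true, decide_eq_true_eq]
      omega
    have h6 : hc e M k a b = dig M k (a + (2 * e + 1) * b) +
        (bif decide (a % 2 = 0) && decide (b % 2 = 0) then 9 * M + 1 else 0) := by
      unfold hc
      rw [h3, cond_true]
    simp only [h6]
    by_cases h4 : a % 2 = 0
    · by_cases h5 : b % 2 = 0
      · simp only [h4, h5, decide_true, Bool.and_self, cond_true, if_true]
        push_cast
        ring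
      · simp [h4, h5]
    · simp [h4]
  have h2 : |∑ a ∈ Finset.range (2 * e + 1), ∑ b ∈ Finset.range (2 * e + 1),
      (dig M k (a + (2 * e + 1) * b) : ℚ) * x ^ a * y ^ b| ≤ M * ((3 * Sx) * (3 * Sy)) := by
    have h3 : (∑ i ∈ Finset.range (2 * e + 1), |x| ^ i) * (∑ i ∈ Finset.range (2 * e + 1), |y| ^ i)
        ≤ (3 * Sx) * (3 * Sy) := by
      rw [hSx, hSy]
      exact mul_le_mul (one_var' x e) (one_var' y e)
        (Finset.sum_nonneg fun i _ => by positivity) (by rw [← hSx]; linarith)
    refine le_trans ?_ (mul_le_mul_of_nonneg_left h3 (Nat.cast_nonneg M))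
    rw [Finset.sum_mul_sum, Finset.mul_sum]
    refine (Finset.abs_sum_le_sum_abs _ _).trans (Finset.sum_le_sum fun a _ => ?_)
    rw [Finset.mul_sum]
    refine (Finset.abs_sum_le_sum_abs _ _).trans (Finset.sum_le_sum fun b _ => ?_)
    rw [abs_mul, abs_mul, abs_pow, abs_pow, Nat.abs_cast, mul_assoc]
    refine mul_le_mul_of_nonneg_right ?_ (by positivity)
    exact_mod_cast dig_le M k _
  rw [h1]
  have h3 := (abs_le.1 h2).1
  have h4 : 1 ≤ Sx * Sy := one_le_mul_of_one_le_of_one_le hx1 hy1
  nlinarith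

end positive

/-- the polynomials of degree at most `n` in each variable with coefficients in `[-H, H]` -/
def Box (n H : ℕ) : Set (List (List ℤ)) :=
  {L | ∃ c : ℕ → ℕ → ℤ, (∀ i j, (c i j).natAbs ≤ H) ∧ L = grid n c}

lemma hc_le (e M k a b : ℕ) : hc e M k a b ≤ 10 * M + 1 := by
  unfold hc
  cases decide (a ≤ 2 * e) && decide (b ≤ 2 * e)
  · exact Nat.zero_le _
  · have h := dig_le M k (a + (2 * e + 1) * b)
    cases decide (a % 2 = 0) && decide (b % 2 = 0) <;> simp only [cond_true, cond_false] <;> omega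

lemma wt_le (e M k i j a b : ℕ) : wt e M k i j a b ≤ 10 * M + 1 := by
  unfold wt
  cases decide (a ≤ i) && decide (b ≤ j)
  · exact Nat.zero_le _
  · exact hc_le _ _ _ _ _

lemma natAbs_sum_le (s : Finset ℕ) (f : ℕ → ℤ) : (∑ i ∈ s, f i).natAbs ≤ ∑ i ∈ s, (f i).natAbs := by
  induction s using Finset.induction_on with
  | empty => simp
  | insert a s ha ih =>
    rw [Finset.sum_insert ha, Finset.sum_insert ha]
    exact (Int.natAbs_add_le _ _).trans (Nat.add_le_add_left ih _)

lemma cf_le (L : List (List ℤ)) (e M k i j : ℕ) : (cf L e M k i j).natAbs ≤ sz L * (10 * M + 1) := by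
  rw [cf_eq]
  refine le_trans ?_ (Nat.mul_le_mul_right _ (sum_abs_le L))
  rw [Finset.sum_mul]
  refine (natAbs_sum_le _ _).trans (Finset.sum_le_sum fun a _ => ?_)
  rw [Finset.sum_mul]
  refine (natAbs_sum_le _ _).trans (Finset.sum_le_sum fun b _ => ?_)
  rw [Int.natAbs_mul, Int.natAbs_natCast]
  exact Nat.mul_le_mul_left _ (wt_le _ _ _ _ _ _ _)

lemma cand_mem {L : List (List ℤ)} {e n M k H : ℕ} (h : sz L * (10 * M + 1) ≤ H) :
    cand L e n M k ∈ Box n H :=
  ⟨_, fun i j => (cf_le L e M k i j).trans h, rfl⟩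

/-- the product has the same rational zeros -/
lemma val_cand {L : List (List ℤ)} {e n M k : ℕ} (h : dg L + 2 * e ≤ n) (x y : ℚ) :
    val (cand L e n M k) x y = 0 ↔ val L x y = 0 := by
  unfold cand
  rw [val_grid, prod_id h, val_eq, mul_eq_zero]
  have := hc_pos e M k x y
  constructor
  · rintro (h1 | h1)
    · exact h1
    · exact absurd h1 this.ne'
  · exact Or.inl

/-- infinitely many rational zeros -/
def Inf (L : List (List ℤ)) : Prop := Set.Infinite {p : ℚ × ℚ | val L p.1 p.2 = 0}

lemma inf_cand {L : List (List ℤ)} {e n M k : ℕ} (h : dg L + 2 * e ≤ n) :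
    Inf (cand L e n M k) ↔ Inf L := by
  unfold Inf
  simp only [val_cand h]

/-- the zero polynomial is replaced by the polynomial `x` -/
def nf (L : List (List ℤ)) : List (List ℤ) := bif decide (sz L = 0) then [[], [1]] else L

lemma sz_nf (L : List (List ℤ)) : sz (nf L) ≠ 0 := by
  unfold nf
  by_cases h : sz L = 0
  · rw [decide_eq_true h, cond_true]
    simp [sz]
  · rw [decide_eq_false h, cond_false]
    exact h

lemma co_of_sz {L : List (List ℤ)} (h : sz L = 0) (i j : ℕ) : co L i j = 0 := by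
  by_contra hcon
  have hi : i < dg L := by
    by_contra h1
    exact hcon (co_zero (Or.inl (by omega)))
  have hj : j < dg L := by
    by_contra h1
    exact hcon (co_zero (Or.inr (by omega)))
  have h1 := sum_abs_le L
  rw [h, Nat.le_zero, Finset.sum_eq_zero_iff] at h1
  have h2 := h1 i (Finset.mem_range.2 hi)
  rw [Finset.sum_eq_zero_iff] at h2
  have h3 := h2 j (Finset.mem_range.2 hj)
  exact hcon (Int.natAbs_eq_zero.1 h3)

lemma inf_nf (L : List (List ℤ)) : Inf (nf L) ↔ Inf L := by
  unfold nf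
  by_cases h : sz L = 0
  · rw [decide_eq_true h, cond_true]
    have h1 : Inf L := by
      unfold Inf
      have h2 : {p : ℚ × ℚ | val L p.1 p.2 = 0} = Set.univ := by
        ext p
        simp only [Set.mem_ofPred_eq, Set.mem_univ, iff_true]
        rw [val_eq]
        unfold ev2
        exact Finset.sum_eq_zero fun i _ => Finset.sum_eq_zero fun j _ => by
          rw [co_of_sz h]
          simp
      rw [h2]
      exact Set.infinite_univ
    have h2 : Inf [[], [1]] := by
      unfold Inf
      have h3 : Set.InjOn (fun n : ℕ => ((0 : ℚ), (n : ℚ))) Set.univ := by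
        intro a _ b _ hab
        simpa using hab
      refine Set.Infinite.mono ?_ (Set.infinite_univ.image h3)
      rintro _ ⟨n, _, rfl⟩
      simp [val, Finset.sum_range_succ]
    exact ⟨fun _ => h1, fun _ => h2⟩
  · rw [decide_eq_false h, cond_false]

end Pool.Agent.H201.AD.Poly2
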