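import Pool.Agent.H201.AD.Bound

/-!
# Computing upper bounds from boundedly many guesses which depend on the input

At the stage `n` there are inputs `c (n, j)`, `j < num n`. For more than half of them one of the (at most `k`)
numbers which a partial algorithm gives is an upper bound at the stage `n`. Which one is right may depend on
the input. Then upper bounds can be computed.
-/

set_option autoImplicit false

namespace Pool.Agent.H201.AD.Bnd

open Filter Encodable
open Pool.Agent.Q324.SC (cnt cnt_eq cnt_comp)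

lemma tot_eq (f : ℕ → ℕ) (m : ℕ) : tot f m = ∑ j ∈ Finset.range m, f j := by
  induction m with
  | zero => rfl
  | succ m ih =>
    have h1 : tot f (m + 1) = tot f m + f m := rfl
    rw [h1, ih, Finset.sum_range_succ]

section

variable {Y : Type} [Primcodable Y] (st : ℕ × ℕ × Y → Option ℕ) (c : ℕ × ℕ → Y) (k : ℕ)

/-- the number of the values known at the time `s` for the input `j` at the stage `n`; `z = (n, s)` -/
def q1 (z : (ℕ × ℕ) × ℕ) : ℕ := cnt (fun i => (st (z.1.2, i, c (z.1.1, z.2))).isSome) k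

/-- the sum of these values -/
def o1 (z : (ℕ × ℕ) × ℕ) : ℕ := tot (fun i => (st (z.1.2, i, c (z.1.1, z.2))).getD 0) k

variable {st c}

lemma arg_comp (cst : Computable st) (cc : Computable c) :
    Computable (fun w : ((ℕ × ℕ) × ℕ) × ℕ => st (w.1.1.2, w.2, c (w.1.1.1, w.1.2))) := by
  have d0 : Computable (fun w : ((ℕ × ℕ) × ℕ) × ℕ => w.1.1) :=
    Computable.fst.comp Computable.fst
  have d1 : Computable (fun w : ((ℕ × ℕ) × ℕ) × ℕ => (w.1.1.1, w.1.2)) :=
    (Computable.fst.comp d0).pair (Computable.snd.comp Computable.fst)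
  have d2 : Computable (fun w : ((ℕ × ℕ) × ℕ) × ℕ => c (w.1.1.1, w.1.2)) := cc.comp d1
  exact cst.comp ((Computable.snd.comp d0).pair (Computable.snd.pair d2))

lemma q1_comp (cst : Computable st) (cc : Computable c) : Computable (q1 st c k) := by
  have h1 := arg_comp cst cc
  have h2 : Computable (fun w : ((ℕ × ℕ) × ℕ) × ℕ =>
      (st (w.1.1.2, w.2, c (w.1.1.1, w.1.2))).isSome) := Primrec.option_isSome.to_comp.comp h1
  exact cnt_comp (f := fun (z : (ℕ × ℕ) × ℕ) i => (st (z.1.2, i, c (z.1.1, z.2))).isSome) h2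
    (Computable.const k)

lemma o1_comp (cst : Computable st) (cc : Computable c) : Computable (o1 st c k) := by
  have h1 := arg_comp cst cc
  have h2 : Computable (fun w : ((ℕ × ℕ) × ℕ) × ℕ =>
      (st (w.1.1.2, w.2, c (w.1.1.1, w.1.2))).getD 0) :=
    Primrec.option_getD.to_comp.comp h1 (Computable.const 0)
  exact tot_comp (f := fun (z : (ℕ × ℕ) × ℕ) i => (st (z.1.2, i, c (z.1.1, z.2))).getD 0) h2
    (Computable.const k)

end

open Classical in
/-- **Computing upper bounds from boundedly many guesses for each input.** -/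
theorem stage_bound {Y : Type} [Primcodable Y] (k : ℕ) {A : ℕ × Y →. ℕ} (hA : Partrec A)
    {c : ℕ × ℕ → Y} (hc : Computable c) {num : ℕ → ℕ} (hnum : Computable num) {R : ℕ → ℕ → Prop}
    (hmono : ∀ n v w, v ≤ w → R n v → R n w) (hdesc : ∀ m n v, m ≤ n → R n v → R m v)
    (h : ∀ n, num n <
      2 * ((Finset.range (num n)).filter fun j => ∃ i < k, ∃ v ∈ A (i, c (n, j)), R n v).card) :
    ∃ C : ℕ → ℕ, Computable C ∧ ∀ n, R n (C n) := by
  obtain ⟨st, cst, mst, vst⟩ := nat_stages hA
  obtain ⟨q, hq⟩ : ∃ q : ℕ × ℕ → ℕ, q = fun z => tot (fun j => q1 st c k (z, j)) (num z.1) :=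
    ⟨_, rfl⟩
  obtain ⟨o, ho⟩ : ∃ o : ℕ × ℕ → ℕ, o = fun z => tot (fun j => o1 st c k (z, j)) (num z.1) :=
    ⟨_, rfl⟩
  have cq : Computable q := by
    rw [hq]
    exact tot_comp (f := fun (z : ℕ × ℕ) j => q1 st c k (z, j)) (q1_comp k cst hc)
      (hnum.comp Computable.fst)
  have co : Computable o := by
    rw [ho]
    exact tot_comp (f := fun (z : ℕ × ℕ) j => o1 st c k (z, j)) (o1_comp k cst hc)
      (hnum.comp Computable.fst)
  have hpos : ∀ n, 0 < num n := by
    intro n
    by_contra hcon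
    have h1 := h n
    have h2 : num n = 0 := by omega
    rw [h2] at h1
    simp at h1
  have hqle : ∀ n s, q (n, s) ≤ k * num n := by
    intro n s
    rw [hq]
    simp only
    rw [tot_eq]
    refine (Finset.sum_le_card_nsmul _ _ k fun j _ => ?_).trans (le_of_eq ?_)
    · unfold q1
      rw [cnt_eq]
      exact (Finset.card_filter_le _ _).trans (le_of_eq (Finset.card_range k))
    · rw [Finset.card_range, smul_eq_mul, Nat.mul_comm]
  have hex : ∃ t, ∃ n₀, ∀ n ≥ n₀, ∀ s, 2 * q (n, s) < (t + 1) * num n := by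
    refine ⟨2 * k, 0, fun n _ s => ?_⟩
    have h1 := hqle n s
    have h2 := hpos n
    nlinarith
  obtain ⟨t, ⟨n₀, hn₀⟩, hmin⟩ : ∃ t, (∃ n₀, ∀ n ≥ n₀, ∀ s, 2 * q (n, s) < (t + 1) * num n) ∧
      ∀ b < t, ¬ ∃ n₀, ∀ n ≥ n₀, ∀ s, 2 * q (n, s) < (b + 1) * num n :=
    ⟨Nat.find hex, Nat.find_spec hex, fun b hb => Nat.find_min hex hb⟩
  have hfreq : ∀ m, ∃ n ≥ m, ∃ s, t * num n ≤ 2 * q (n, s) := by
    intro m
    rcases Nat.eq_zero_or_pos t with h0 | h0
    · exact ⟨m, le_rfl, 0, by rw [h0, Nat.zero_mul]; exact Nat.zero_le _⟩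
    · by_contra hcon
      push Not at hcon
      refine hmin (t - 1) (by omega) ⟨m, fun n hn s => ?_⟩
      rw [Nat.sub_add_cancel h0]
      exact hcon n hn s
  -- the search
  let p : ℕ → ℕ → Bool := fun m u => decide (n₀ ≤ u.unpair.1) && (decide (m ≤ u.unpair.1) &&
    decide (t * num u.unpair.1 ≤ 2 * q u.unpair))
  have hp : Computable₂ p := by
    have h0 : Primrec (fun y : ℕ × ℕ => decide (y.1 ≤ y.2)) :=
      (Primrec.nat_le.comp Primrec.fst Primrec.snd).decide
    have u0 : Computable (fun z : ℕ × ℕ => z.2.unpair) :=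
      (Primrec.unpair.comp Primrec.snd).to_comp
    have u1 : Computable (fun z : ℕ × ℕ => z.2.unpair.1) :=
      (Primrec.fst.comp (Primrec.unpair.comp Primrec.snd)).to_comp
    have a1 : Computable (fun z : ℕ × ℕ => decide (n₀ ≤ z.2.unpair.1)) :=
      Computable.comp (f := fun y : ℕ × ℕ => decide (y.1 ≤ y.2))
        (g := fun z : ℕ × ℕ => (n₀, z.2.unpair.1)) h0.to_comp ((Computable.const n₀).pair u1)
    have a2 : Computable (fun z : ℕ × ℕ => decide (z.1 ≤ z.2.unpair.1)) :=
      Computable.comp (f := fun y : ℕ × ℕ => decide (y.1 ≤ y.2))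
        (g := fun z : ℕ × ℕ => (z.1, z.2.unpair.1)) h0.to_comp (Computable.fst.pair u1)
    have a3 : Computable (fun z : ℕ × ℕ => t * num z.2.unpair.1) :=
      Primrec.nat_mul.to_comp.comp (Computable.const t) (hnum.comp u1)
    have a4 : Computable (fun z : ℕ × ℕ => 2 * q z.2.unpair) :=
      Primrec.nat_mul.to_comp.comp (Computable.const 2) (cq.comp u0)
    have a5 : Computable (fun z : ℕ × ℕ => decide (t * num z.2.unpair.1 ≤ 2 * q z.2.unpair)) :=
      Computable.comp (f := fun y : ℕ × ℕ => decide (y.1 ≤ y.2))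
        (g := fun z : ℕ × ℕ => (t * num z.2.unpair.1, 2 * q z.2.unpair)) h0.to_comp (a3.pair a4)
    exact Primrec.and.to_comp.comp a1 (Primrec.and.to_comp.comp a2 a5)
  obtain ⟨f, hf, hf2⟩ := find_comp hp fun m => by
    obtain ⟨n, hn, s, hs⟩ := hfreq (max n₀ m)
    refine ⟨Nat.pair n s, ?_⟩
    simp only [p, Nat.unpair_pair, Bool.and_eq_true, decide_eq_true_eq]
    exact ⟨(le_max_left _ _).trans hn, (le_max_right _ _).trans hn, hs⟩
  refine ⟨fun m => o (f m).unpair, co.comp (Computable.unpair.comp hf), fun m => ?_⟩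
  have h1 := hf2 m
  simp only [p, Bool.and_eq_true, decide_eq_true_eq] at h1
  obtain ⟨h2, h3, h4⟩ := h1
  obtain ⟨n, hn⟩ : ∃ n, n = (f m).unpair.1 := ⟨_, rfl⟩
  obtain ⟨s, hs⟩ : ∃ s, s = (f m).unpair.2 := ⟨_, rfl⟩
  have hns : (f m).unpair = (n, s) := by rw [hn, hs]
  change R m (o (f m).unpair)
  rw [hns] at h2 h3 h4 ⊢
  simp only at h2 h3 h4
  refine hdesc m n _ h3 ?_
  -- a later time at which the right values are known
  obtain ⟨J, hJ⟩ : ∃ J, J = (Finset.range (num n)).filter
    fun j => ∃ i < k, ∃ v ∈ A (i, c (n, j)), R n v := ⟨_, rfl⟩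
  have hJn := h n
  rw [← hJ] at hJn
  have hgood : ∀ j ∈ J, ∃ i < k, ∃ v ∈ A (i, c (n, j)), R n v := by
    intro j hj
    rw [hJ, Finset.mem_filter] at hj
    exact hj.2
  have h5 : ∀ᶠ s' in atTop, ∀ j ∈ J, ∃ i < k, ∃ v, st (s', i, c (n, j)) = some v ∧ R n v := by
    rw [Filter.eventually_all_finset]
    intro j hj
    obtain ⟨i, hi, v, hv, hR⟩ := hgood j hj
    obtain ⟨s₁, hs₁⟩ := (vst _ _).2 hv
    filter_upwards [eventually_ge_atTop s₁] with s' hs'
    exact ⟨i, hi, v, mst _ _ _ _ hs' hs₁, hR⟩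
  obtain ⟨s', hs', hs''⟩ := (h5.and (eventually_ge_atTop s)).exists
  -- one of them is known already at the time `s`
  have key : ∃ j ∈ J, ∃ i < k, ∃ v, st (s, i, c (n, j)) = some v ∧ R n v := by
    by_contra hcon
    push Not at hcon
    have h6 : ∀ j ∈ Finset.range (num n), q1 st c k ((n, s), j) + (if j ∈ J then 1 else 0) ≤
        q1 st c k ((n, s'), j) := by
      intro j _
      unfold q1
      rw [cnt_eq, cnt_eq]
      have hsub : (Finset.range k).filter (fun i => (st (s, i, c (n, j))).isSome = true) ⊆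
          (Finset.range k).filter (fun i => (st (s', i, c (n, j))).isSome = true) := by
        intro i hi
        rw [Finset.mem_filter] at hi ⊢
        obtain ⟨b, hb⟩ := Option.isSome_iff_exists.1 hi.2
        exact ⟨hi.1, Option.isSome_iff_exists.2 ⟨b, mst s s' _ b hs'' hb⟩⟩
      by_cases hj : j ∈ J
      · rw [if_pos hj]
        obtain ⟨i, hi, v, hv, hR⟩ := hs' j hj
        refine Finset.card_lt_card (Finset.ssubset_iff_subset_ne.2 ⟨hsub, fun heq => ?_⟩)
        have h7 : i ∈ (Finset.range k).filter (fun i => (st (s', i, c (n, j))).isSome = true) :=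
          Finset.mem_filter.2 ⟨Finset.mem_range.2 hi, by rw [hv]; rfl⟩
        rw [← heq, Finset.mem_filter] at h7
        obtain ⟨w, hw⟩ := Option.isSome_iff_exists.1 h7.2
        have h8 := mst s s' _ w hs'' hw
        rw [hv, Option.some.injEq] at h8
        exact hcon j hj i hi w hw (h8 ▸ hR)
      · rw [if_neg hj, Nat.add_zero]
        exact Finset.card_le_card hsub
    have h7 := Finset.sum_le_sum h6
    have h8 : (Finset.range (num n)) ∩ J = J := by
      refine Finset.inter_eq_right.2 ?_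
      rw [hJ]
      exact Finset.filter_subset _ _
    rw [Finset.sum_add_distrib, Finset.sum_ite_mem, h8, Finset.sum_const, smul_eq_mul, Nat.mul_one,
      ← tot_eq, ← tot_eq] at h7
    have h9 := hn₀ n h2 s'
    rw [hq] at h4 h9
    simp only at h4 h9
    nlinarith
  obtain ⟨j, hj, i, hi, v, hv, hR⟩ := key
  refine hmono n v _ ?_ hR
  have hjn : j < num n := by
    rw [hJ, Finset.mem_filter, Finset.mem_range] at hj
    exact hj.1
  have h6 : v ≤ o1 st c k ((n, s), j) := by
    have h7 := le_tot (f := fun i => (st (s, i, c (n, j))).getD 0) hi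
    simp only [hv, Option.getD_some] at h7
    exact h7
  have h7 : o1 st c k ((n, s), j) ≤ o (n, s) := by
    rw [ho]
    exact le_tot (f := fun j => o1 st c k ((n, s), j)) hjn
  exact h6.trans h7

end Pool.Agent.H201.AD.Bnd
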